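import Pool.Agent.Y438.LW.Lt0

/-!
# The tail of the truncated singular series, uniformly in the polynomial

The polynomial `F` enters only through a bound `e` for its degree and a number `w` such that no prime
larger than `w` divides all its coefficients of positive index. (The second moment is adapted from the
proof for a fixed polynomial, file `Y438/LW/Lt0` of the starting tree.)
-/

set_option autoImplicit false

open Finset

namespace Run7.h976.FX

open Pool.Agent.Y871.LW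
open Pool.Agent.Y438.LW (cov_le Yf sum_inv_sq_le)

/-- no prime larger than `w` divides all the coefficients of positive index -/
def Co (w : ℕ) (F : Polynomial ℤ) : Prop :=
  ∀ p : ℕ, p.Prime → w < p → ∃ i, 1 ≤ i ∧ ¬ (p : ℤ) ∣ F.coeff i

theorem rho_le (F : Polynomial ℤ) {e : ℕ} (he : F.natDegree ≤ e) (k : ℤ) (p : ℕ) (hp : p.Prime)
    (hlc : ∃ i, 1 ≤ i ∧ ¬ (p : ℤ) ∣ F.coeff i) : rhoC F k p ≤ e := by
  have : Fact p.Prime := ⟨hp⟩
  obtain ⟨i, hi, hpi⟩ := hlc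
  set g : Polynomial (ZMod p) := (F + Polynomial.C k).map (Int.castRingHom (ZMod p)) with hg
  have hcoeff : g.coeff i = (F.coeff i : ZMod p) := by
    rw [hg, Polynomial.coeff_map, Polynomial.coeff_add, Polynomial.coeff_C, if_neg (by omega),
      add_zero]
    rfl
  have hne : (F.coeff i : ZMod p) ≠ 0 := by
    intro h
    rw [ZMod.intCast_zmod_eq_zero_iff_dvd] at h
    exact hpi h
  have hg0 : g ≠ 0 := by
    intro h
    rw [h, Polynomial.coeff_zero] at hcoeff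
    exact hne hcoeff.symm
  have hdeg : g.natDegree ≤ e := by
    calc g.natDegree ≤ (F + Polynomial.C k).natDegree := Polynomial.natDegree_map_le
      _ = F.natDegree := Polynomial.natDegree_add_C
      _ ≤ e := he
  have hcard : rhoC F k p ≤ g.roots.toFinset.card := by
    unfold rhoC
    refine Finset.card_le_card_of_injOn (fun a : ℕ => (a : ZMod p)) ?_ ?_
    · intro a ha
      rw [Finset.mem_coe, Finset.mem_filter] at ha
      rw [Finset.mem_coe, Multiset.mem_toFinset, Polynomial.mem_roots hg0, Polynomial.IsRoot, hg,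
        Polynomial.eval_natCast_map, Polynomial.eval_add, Polynomial.eval_C]
      exact (ZMod.intCast_zmod_eq_zero_iff_dvd _ _).2 ha.2
    · intro a ha b hb hab
      rw [Finset.mem_coe, Finset.mem_filter, Finset.mem_range] at ha hb
      have h := (ZMod.natCast_eq_natCast_iff' a b p).1 hab
      rwa [Nat.mod_eq_of_lt ha.1, Nat.mod_eq_of_lt hb.1] at h
  exact hcard.trans ((Multiset.toFinset_card_le _).trans ((Polynomial.card_roots' g).trans hdeg))

theorem abs_rho_sub_one_le (F : Polynomial ℤ) {e : ℕ} (he : F.natDegree ≤ e) (k : ℤ) (p : ℕ)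
    (hp : p.Prime) (hlc : ∃ i, 1 ≤ i ∧ ¬ (p : ℤ) ∣ F.coeff i) :
    |(rhoC F k p : ℝ) - 1| ≤ (e : ℝ) + 1 := by
  have h1 : (rhoC F k p : ℝ) ≤ (e : ℝ) := by exact_mod_cast rho_le F he k p hp hlc
  have h0 : (0 : ℝ) ≤ (rhoC F k p : ℝ) := Nat.cast_nonneg _
  have h2 : (0 : ℝ) ≤ (e : ℝ) := Nat.cast_nonneg _
  rw [abs_le]
  constructor <;> linarith

theorem diag_le (F : Polynomial ℤ) {e : ℕ} (he : F.natDegree ≤ e) (N p : ℕ)
    (hp : p.Prime) (hlc : ∃ i, 1 ≤ i ∧ ¬ (p : ℤ) ∣ F.coeff i) :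
    ∑ k ∈ Icc (-(N : ℤ)) N, ((rhoC F k p : ℝ) - 1) * ((rhoC F k p : ℝ) - 1) ≤
      (2 * N + 1) * ((e : ℝ) + 1) ^ 2 := by
  have h4 : ∑ k ∈ Icc (-(N : ℤ)) N, ((e : ℝ) + 1) ^ 2 =
      (2 * N + 1) * ((e : ℝ) + 1) ^ 2 := by
    rw [Finset.sum_const, nsmul_eq_mul, Int.card_Icc]
    have : ((N : ℤ) + 1 - -(N : ℤ)).toNat = 2 * N + 1 := by omega
    rw [this]
    push_cast
    ring
  rw [← h4]
  refine Finset.sum_le_sum (fun k _ => ?_)
  have h := abs_rho_sub_one_le F he k p hp hlc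
  have h2 : (0 : ℝ) ≤ (e : ℝ) := Nat.cast_nonneg _
  have h3 := abs_nonneg ((rhoC F k p : ℝ) - 1)
  nlinarith [sq_abs ((rhoC F k p : ℝ) - 1)]

/-- the second moment bound -/
theorem second_moment (F : Polynomial ℤ) {e : ℕ} (he : F.natDegree ≤ e) (N w z : ℕ)
    (hlc : Co w F) (hw : 1 ≤ w) :
    ∑ k ∈ Icc (-(N : ℤ)) N, (Yf F w z k) ^ 2 ≤
      (2 * N + 1) * ((e : ℝ) + 1) ^ 2 * (w : ℝ)⁻¹ + 3 * (z : ℝ) ^ 2 := by
  set P := (Ioc w z).filter Nat.Prime with hP
  set D : ℝ := (2 * N + 1) * ((e : ℝ) + 1) ^ 2 with hD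
  have hD0 : 0 ≤ D := by positivity
  have h1 : ∑ k ∈ Icc (-(N : ℤ)) N, (Yf F w z k) ^ 2 =
      ∑ p ∈ P, ∑ q ∈ P, ((p : ℝ) * q)⁻¹ *
        ∑ k ∈ Icc (-(N : ℤ)) N, ((rhoC F k p : ℝ) - 1) * ((rhoC F k q : ℝ) - 1) := by
    have h2 : ∀ k ∈ Icc (-(N : ℤ)) N, (Yf F w z k) ^ 2 =
        ∑ p ∈ P, ∑ q ∈ P, ((p : ℝ) * q)⁻¹ *
          (((rhoC F k p : ℝ) - 1) * ((rhoC F k q : ℝ) - 1)) := by
      intro k _
      unfold Yf
      rw [sq, Finset.sum_mul_sum]
      refine Finset.sum_congr rfl (fun a _ => Finset.sum_congr rfl (fun b _ => ?_))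
      rw [mul_inv]
      ring
    rw [Finset.sum_congr rfl h2, Finset.sum_comm]
    refine Finset.sum_congr rfl (fun a _ => ?_)
    rw [Finset.sum_comm]
    refine Finset.sum_congr rfl (fun b _ => ?_)
    rw [Finset.mul_sum]
  have h3 : ∀ p ∈ P, ∀ q ∈ P, ((p : ℝ) * q)⁻¹ *
        ∑ k ∈ Icc (-(N : ℤ)) N, ((rhoC F k p : ℝ) - 1) * ((rhoC F k q : ℝ) - 1) ≤
        (if p = q then D * ((p : ℝ) ^ 2)⁻¹ else 0) + 3 := by
    intro p hp q hq
    rw [hP, Finset.mem_filter, Finset.mem_Ioc] at hp hq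
    have hp0 : (0 : ℝ) < (p : ℝ) := by exact_mod_cast hp.2.pos
    have hq0 : (0 : ℝ) < (q : ℝ) := by exact_mod_cast hq.2.pos
    have hpq0 : (0 : ℝ) ≤ ((p : ℝ) * q)⁻¹ := by positivity
    by_cases h : p = q
    · subst h
      rw [if_pos rfl]
      have h4 := diag_le F he N p hp.2 (hlc p hp.2 hp.1.1)
      have h5 := mul_le_mul_of_nonneg_left h4 hpq0
      have h6 : ((p : ℝ) * p)⁻¹ * ((2 * N + 1) * ((e : ℝ) + 1) ^ 2) =
          D * ((p : ℝ) ^ 2)⁻¹ := by
        rw [hD, sq (p : ℝ)]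
        ring
      rw [h6] at h5
      linarith
    · rw [if_neg h]
      have h4 := cov_le F N p q hp.2 hq.2 h
      have h5 := mul_le_mul_of_nonneg_left h4 hpq0
      have h6 : ((p : ℝ) * q)⁻¹ * (3 * ((p : ℝ) * q)) = 3 := by
        field_simp
      rw [h6] at h5
      linarith
  have hcard : (P.card : ℝ) ≤ (z : ℝ) := by
    have h5 : P.card ≤ z := by
      calc P.card ≤ (Ioc w z).card := Finset.card_filter_le _ _
        _ = z - w := Nat.card_Ioc w z
        _ ≤ z := Nat.sub_le _ _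
    exact_mod_cast h5
  have hcard0 : (0 : ℝ) ≤ (P.card : ℝ) := Nat.cast_nonneg _
  rw [h1]
  calc ∑ p ∈ P, ∑ q ∈ P, ((p : ℝ) * q)⁻¹ *
        ∑ k ∈ Icc (-(N : ℤ)) N, ((rhoC F k p : ℝ) - 1) * ((rhoC F k q : ℝ) - 1)
      ≤ ∑ p ∈ P, ∑ q ∈ P, ((if p = q then D * ((p : ℝ) ^ 2)⁻¹ else 0) + 3) :=
        Finset.sum_le_sum (fun p hp => Finset.sum_le_sum (fun q hq => h3 p hp q hq))
    _ = D * ∑ p ∈ P, ((p : ℝ) ^ 2)⁻¹ + 3 * (P.card : ℝ) ^ 2 := by
        simp only [Finset.sum_add_distrib, Finset.sum_const, nsmul_eq_mul, Finset.sum_ite_eq]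
        rw [Finset.mul_sum]
        congr 1
        · refine Finset.sum_congr rfl (fun p hp => ?_)
          rw [if_pos hp]
        · ring
    _ ≤ D * (w : ℝ)⁻¹ + 3 * (z : ℝ) ^ 2 := by
        have h6 := mul_le_mul_of_nonneg_left (sum_inv_sq_le w z hw) hD0
        have h7 : (P.card : ℝ) ^ 2 ≤ (z : ℝ) ^ 2 := by
          exact pow_le_pow_left₀ hcard0 hcard 2
        linarith

/-- the product over the primes of `(w, y]` -/
theorem prod_le (F : Polynomial ℤ) (k : ℤ) (w y : ℕ) (hw : 1 ≤ w) :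
    ∏ p ∈ (Ioc w y).filter Nat.Prime, ((p : ℝ) - rhoC F k p) / ((p : ℝ) - 1) ≤
      Real.exp (-(Yf F w y k) + 2) := by
  have h1 : ∏ p ∈ (Ioc w y).filter Nat.Prime, ((p : ℝ) - rhoC F k p) / ((p : ℝ) - 1) ≤
      ∏ p ∈ (Ioc w y).filter Nat.Prime,
        Real.exp (-(((rhoC F k p : ℝ) - 1) / p) + 2 * ((p : ℝ) ^ 2)⁻¹) := by
    refine prod_le_prod (fun p hp => ?_) (fun p hp => ?_)
    · rw [mem_filter] at hp
      have h2 : (2 : ℝ) ≤ p := by exact_mod_cast hp.2.two_le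
      have h3 : (rhoC F k p : ℝ) ≤ p := by
        have : rhoC F k p ≤ p := by
          unfold rhoC
          exact (card_filter_le _ _).trans_eq (card_range _)
        exact_mod_cast this
      exact div_nonneg (by linarith) (by linarith)
    · rw [mem_filter] at hp
      have h2 : (2 : ℝ) ≤ p := by exact_mod_cast hp.2.two_le
      have hp0 : (0 : ℝ) < p := by linarith
      have hp1 : (0 : ℝ) < (p : ℝ) - 1 := by linarith
      have h0 : (0 : ℝ) ≤ rhoC F k p := Nat.cast_nonneg _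
      have e1 : ((p : ℝ) - rhoC F k p) / ((p : ℝ) - 1) = -(((rhoC F k p : ℝ) - 1) / ((p : ℝ) - 1)) + 1 := by
        field_simp
        ring
      rw [e1]
      refine (Real.add_one_le_exp _).trans (Real.exp_le_exp.2 ?_)
      have e2 : ((rhoC F k p : ℝ) - 1) / ((p : ℝ) - 1) = ((rhoC F k p : ℝ) - 1) / p +
          ((rhoC F k p : ℝ) - 1) / (p * ((p : ℝ) - 1)) := by
        field_simp
        ring
      rw [e2]
      have e3 : -(2 * ((p : ℝ) ^ 2)⁻¹) ≤ ((rhoC F k p : ℝ) - 1) / (p * ((p : ℝ) - 1)) := by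
        rw [← div_eq_mul_inv, neg_div', div_le_div_iff₀ (by positivity) (by positivity)]
        have h4 : (p : ℝ) ^ 2 ≤ 2 * (p * ((p : ℝ) - 1)) := by nlinarith
        have h5 : 0 ≤ (rhoC F k p : ℝ) * (p : ℝ) ^ 2 := by positivity
        nlinarith
      linarith
  refine h1.trans ?_
  rw [← Real.exp_sum, Real.exp_le_exp, sum_add_distrib, sum_neg_distrib, ← mul_sum]
  have h2 := sum_inv_sq_le w y hw
  have h3 : (w : ℝ)⁻¹ ≤ 1 := inv_le_one_of_one_le₀ (by exact_mod_cast hw)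
  unfold Yf
  linarith

/-- few constant terms with a large linear statistic -/
theorem Yf_large (F : Polynomial ℤ) {e : ℕ} (he : F.natDegree ≤ e) (N w y : ℕ)
    (hlc : Co w F) (hw : 1 ≤ w) :
    (((Icc (-(N : ℤ)) N).filter (fun k => 1 < |Yf F w y k|)).card : ℝ) ≤
      (2 * N + 1) * ((e : ℝ) + 1) ^ 2 * (w : ℝ)⁻¹ + 3 * (y : ℝ) ^ 2 := by
  refine le_trans ?_ (second_moment F he N w y hlc hw)
  calc (((Icc (-(N : ℤ)) N).filter (fun k => 1 < |Yf F w y k|)).card : ℝ)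
      = ∑ k ∈ (Icc (-(N : ℤ)) N).filter (fun k => 1 < |Yf F w y k|), (1 : ℝ) := by
        rw [sum_const, nsmul_eq_mul, mul_one]
    _ ≤ ∑ k ∈ (Icc (-(N : ℤ)) N).filter (fun k => 1 < |Yf F w y k|), (Yf F w y k) ^ 2 := by
        refine sum_le_sum fun k hk => ?_
        have h1 := (mem_filter.1 hk).2
        rw [← sq_abs]
        nlinarith [abs_nonneg (Yf F w y k)]
    _ ≤ _ := sum_le_sum_of_subset_of_nonneg (filter_subset _ _) (fun _ _ _ => sq_nonneg _)

end Run7.h976.FX
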