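import Pool.Agent.TH892.FullBox
import Pool.Agent.Run7.h976.FX.Tail

/-!
# The box of all polynomials of height `H`: fibres over the constant term, common prime divisors of the
other coefficients
-/

set_option autoImplicit false

open Finset Polynomial

namespace Run7.h976.FX

open Pool.Agent.TH892 (box pol pol_eval)
open Pool.Agent.H300R2.BH (SS rho)
open Pool.Agent.Y871.LW (rhoC SC)
open Pool.Agent.Y438.LW (count_bounds)

/-- the polynomial with the coefficients `0, r 0, r 1, ...` -/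
noncomputable def FT {j : ℕ} (r : Fin j → ℤ) : ℤ[X] := ∑ i : Fin j, C (r i) * X ^ ((i : ℕ) + 1)

/-- the box of the coefficients of positive index -/
noncomputable def tb (j H : ℕ) : Finset (Fin j → ℤ) :=
  Fintype.piFinset (fun i : Fin j => if (i : ℕ) + 1 = j then Icc 1 (H : ℤ) else Icc (-(H : ℤ)) H)

lemma pol_cons {j : ℕ} (k : ℤ) (r : Fin j → ℤ) :
    pol (Fin.cons k r : Fin (j + 1) → ℤ) = FT r + C k := by
  unfold pol FT
  rw [Fin.sum_univ_succ]
  simp only [Fin.cons_zero, Fin.cons_succ, Fin.val_zero, Fin.val_succ, pow_zero, mul_one]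
  rw [add_comm]

lemma mem_box_cons {j H : ℕ} (hj : 1 ≤ j) (k : ℤ) (r : Fin j → ℤ) :
    (Fin.cons k r : Fin (j + 1) → ℤ) ∈ box j H ↔ k ∈ Icc (-(H : ℤ)) H ∧ r ∈ tb j H := by
  unfold Pool.Agent.TH892.box tb
  rw [Fintype.mem_piFinset, Fintype.mem_piFinset, Fin.forall_fin_succ]
  simp only [Fin.cons_zero, Fin.cons_succ, Fin.val_zero, Fin.val_succ]
  rw [if_neg (by omega)]

lemma card_filter_box {j H : ℕ} (hj : 1 ≤ j) (P : (Fin (j + 1) → ℤ) → Prop) [DecidablePred P] :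
    ((box j H).filter P).card =
      ∑ r ∈ tb j H, ((Icc (-(H : ℤ)) H).filter (fun k => P (Fin.cons k r))).card := by
  classical
  rw [← card_sigma]
  refine card_bij' (fun c _ => (⟨Fin.tail c, c 0⟩ : Σ _ : Fin j → ℤ, ℤ))
    (fun x _ => Fin.cons x.2 x.1) ?_ ?_ ?_ ?_
  · intro c hc
    rw [mem_filter] at hc
    have h1 : (Fin.cons (c 0) (Fin.tail c) : Fin (j + 1) → ℤ) = c := Fin.cons_self_tail c
    have h2 := hc.1
    rw [← h1, mem_box_cons hj] at h2
    rw [mem_sigma, mem_filter]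
    refine ⟨h2.2, h2.1, ?_⟩
    simp only
    rw [h1]
    exact hc.2
  · rintro ⟨r, k⟩ hx
    rw [mem_sigma, mem_filter] at hx
    rw [mem_filter, mem_box_cons hj]
    exact ⟨⟨hx.2.1, hx.1⟩, hx.2.2⟩
  · intro c hc
    exact Fin.cons_self_tail c
  · rintro ⟨r, k⟩ hx
    simp only [Fin.tail_cons, Fin.cons_zero]

lemma card_box_eq {j H : ℕ} (hj : 1 ≤ j) : ((box j H).card : ℝ) = (2 * H + 1) * (tb j H).card := by
  classical
  have h := card_filter_box (H := H) hj (fun _ => True)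
  rw [filter_true_of_mem (fun _ _ => trivial)] at h
  rw [h]
  simp only [filter_true, Int.card_Icc, sum_const, smul_eq_mul]
  have : ((H : ℤ) + 1 - -(H : ℤ)).toNat = 2 * H + 1 := by omega
  rw [this]
  push_cast
  ring

lemma eval_cons {j : ℕ} (k : ℤ) (r : Fin j → ℤ) (n : ℤ) :
    (pol (Fin.cons k r : Fin (j + 1) → ℤ)).eval n = (FT r).eval n + k := by
  rw [pol_cons, eval_add, eval_C]

lemma rho_cons {j : ℕ} (k : ℤ) (r : Fin j → ℤ) (p : ℕ) :
    rho (pol (Fin.cons k r : Fin (j + 1) → ℤ)) p = rhoC (FT r) k p := by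
  unfold rho rhoC
  congr 1
  apply filter_congr
  intro a _
  rw [eval_cons]

lemma SS_cons {j : ℕ} (k : ℤ) (r : Fin j → ℤ) (z : ℕ) :
    SS z (pol (Fin.cons k r : Fin (j + 1) → ℤ)) = SC (FT r) k z := by
  unfold SS SC
  have hs : (Icc 1 z).filter Nat.Prime = (range (z + 1)).filter Nat.Prime := by
    ext p
    rw [mem_filter, mem_filter, mem_range, mem_Icc]
    constructor
    · rintro ⟨⟨h1, h3⟩, h2⟩
      exact ⟨by omega, h2⟩
    · rintro ⟨h1, h2⟩
      exact ⟨⟨h2.one_le, by omega⟩, h2⟩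
  rw [hs]
  apply prod_congr rfl
  intro p hp
  have hp2 := (mem_filter.1 hp).2.two_le
  have hpr : (2 : ℝ) ≤ p := by exact_mod_cast hp2
  have h1 : (p : ℝ) ≠ 0 := by linarith
  have h2 : (p : ℝ) - 1 ≠ 0 := by linarith
  have h3 : (1 : ℝ) - 1 / p ≠ 0 := by
    rw [one_sub_div h1]
    exact div_ne_zero h2 h1
  rw [rho_cons]
  field_simp

lemma FT_coeff {j : ℕ} (r : Fin j → ℤ) (i : Fin j) : (FT r).coeff ((i : ℕ) + 1) = r i := by
  unfold FT
  rw [finsetSum_coeff, sum_eq_single i]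
  · rw [coeff_C_mul, coeff_X_pow, if_pos rfl, mul_one]
  · intro b _ hb
    rw [coeff_C_mul, coeff_X_pow, if_neg, mul_zero]
    intro h
    exact hb (Fin.ext (by omega))
  · intro h
    exact absurd (mem_univ i) h

lemma FT_natDegree_le {j : ℕ} (r : Fin j → ℤ) : (FT r).natDegree ≤ j := by
  unfold FT
  refine natDegree_sum_le_of_forall_le _ _ fun i _ => ?_
  refine (natDegree_C_mul_X_pow_le _ _).trans ?_
  have := i.2
  omega

lemma not_Co {j w : ℕ} {r : Fin j → ℤ} (h : ¬ Co w (FT r)) :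
    ∃ p : ℕ, p.Prime ∧ w < p ∧ ∀ i, (p : ℤ) ∣ r i := by
  unfold Co at h
  push Not at h
  obtain ⟨p, hp, hw, h1⟩ := h
  refine ⟨p, hp, hw, fun i => ?_⟩
  have h2 := h1 ((i : ℕ) + 1) (by omega)
  rwa [FT_coeff] at h2

/-- the multiples of `p` in one of the intervals -/
lemma one_coord {H p : ℕ} (hp : 2 ≤ p) (hpH : p ≤ H) (b : Prop) [Decidable b] :
    (((if b then Icc 1 (H : ℤ) else Icc (-(H : ℤ)) H).filter (fun x => (p : ℤ) ∣ x)).card : ℝ) ≤
      3 / (2 * p) * ((if b then Icc 1 (H : ℤ) else Icc (-(H : ℤ)) H).card : ℝ) := by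
  have hp0 : (0 : ℝ) < p := by exact_mod_cast (by omega : 0 < p)
  have hpHr : (p : ℝ) ≤ H := by exact_mod_cast hpH
  split_ifs with hb
  · have h1 : (Icc 1 (H : ℤ)) = Ioc 0 (H : ℤ) := by
      ext x; rw [mem_Icc, mem_Ioc]; omega
    have h2 := Int.Ioc_filter_dvd_card (0 : ℤ) (H : ℤ) (r := (p : ℤ)) (by exact_mod_cast (by omega : 0 < p))
    have h3 : (((Icc 1 (H : ℤ)).filter (fun x => (p : ℤ) ∣ x)).card : ℝ) ≤ (H : ℝ) / p := by
      rw [h1]
      have h4 : (((Ioc 0 (H : ℤ)).filter (fun x => (p : ℤ) ∣ x)).card : ℤ) = ⌊((H : ℤ) : ℚ) / ((p : ℤ) : ℚ)⌋ := by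
        rw [h2]
        simp only [Int.cast_zero, zero_div, Int.floor_zero, sub_zero]
        exact max_eq_left (Int.floor_nonneg.2 (by positivity))
      have h5 := Int.floor_le (((H : ℤ) : ℚ) / ((p : ℤ) : ℚ))
      rw [← h4] at h5
      have h6 : ((((Ioc 0 (H : ℤ)).filter (fun x => (p : ℤ) ∣ x)).card : ℚ)) ≤ (H : ℚ) / p := by
        push_cast at h5
        exact h5
      have h7 := (Rat.cast_le (K := ℝ)).2 h6
      push_cast at h7
      exact h7
    have h4 : ((Icc 1 (H : ℤ)).card : ℝ) = H := by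
      rw [Int.card_Icc]
      have : ((H : ℤ) + 1 - 1).toNat = H := by omega
      rw [this]
    rw [h4]
    refine h3.trans ?_
    rw [div_mul_eq_mul_div, div_le_div_iff₀ hp0 (by positivity)]
    have : (0 : ℝ) ≤ H * p := by positivity
    nlinarith
  · have h1 := (count_bounds H p (by omega) 0).2
    simp only [zero_add] at h1
    have h4 : ((Icc (-(H : ℤ)) (H : ℤ)).card : ℝ) = 2 * H + 1 := by
      rw [Int.card_Icc]
      have : ((H : ℤ) + 1 - -(H : ℤ)).toNat = 2 * H + 1 := by omega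
      rw [this]
      push_cast
      ring
    rw [h4]
    refine h1.trans ?_
    have h5 : (2 * H + 1 : ℝ) / p + 1 ≤ 3 / (2 * p) * (2 * H + 1) := by
      rw [div_mul_eq_mul_div, div_add_one hp0.ne', div_le_div_iff₀ hp0 (by positivity)]
      have : (0 : ℝ) ≤ p * (2 * H + 1 - 2 * p) := mul_nonneg hp0.le (by linarith)
      nlinarith
    exact h5

/-- the vectors of the box all of whose entries are divisible by `p` -/
lemma card_div {j H p : ℕ} (hj : 2 ≤ j) (hp : 2 ≤ p) (hpH : p ≤ H) :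
    (((tb j H).filter (fun r => ∀ i, (p : ℤ) ∣ r i)).card : ℝ) ≤
      9 / 4 * ((p : ℝ) ^ 2)⁻¹ * (tb j H).card := by
  classical
  have hp0 : (0 : ℝ) < p := by exact_mod_cast (by omega : 0 < p)
  have hp2 : (2 : ℝ) ≤ p := by exact_mod_cast hp
  obtain ⟨s, hs⟩ : ∃ s : Fin j → Finset ℤ, s = fun i : Fin j =>
    if (i : ℕ) + 1 = j then Icc 1 (H : ℤ) else Icc (-(H : ℤ)) H := ⟨_, rfl⟩
  have htb : tb j H = Fintype.piFinset s := by rw [hs]; rfl
  have h1 : (tb j H).filter (fun r => ∀ i, (p : ℤ) ∣ r i) =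
      Fintype.piFinset (fun i => (s i).filter (fun x => (p : ℤ) ∣ x)) := by
    rw [htb]
    ext r
    rw [mem_filter, Fintype.mem_piFinset, Fintype.mem_piFinset]
    constructor
    · rintro ⟨h1, h2⟩ i
      exact mem_filter.2 ⟨h1 i, h2 i⟩
    · intro h
      exact ⟨fun i => (mem_filter.1 (h i)).1, fun i => (mem_filter.1 (h i)).2⟩
  rw [h1, htb, Fintype.card_piFinset, Fintype.card_piFinset]
  push_cast
  have h2 : ∏ i, (((s i).filter (fun x => (p : ℤ) ∣ x)).card : ℝ) ≤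
      ∏ i, (3 / (2 * (p : ℝ)) * ((s i).card : ℝ)) := by
    refine prod_le_prod (fun i _ => Nat.cast_nonneg _) (fun i _ => ?_)
    rw [hs]
    exact one_coord hp hpH _
  refine h2.trans ?_
  rw [prod_mul_distrib, prod_const, card_univ, Fintype.card_fin]
  refine mul_le_mul_of_nonneg_right ?_ (prod_nonneg fun i _ => Nat.cast_nonneg _)
  have h3 : (3 / (2 * (p : ℝ))) ≤ 1 := by
    rw [div_le_one (by positivity)]
    linarith
  calc (3 / (2 * (p : ℝ))) ^ j ≤ (3 / (2 * (p : ℝ))) ^ 2 :=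
        pow_le_pow_of_le_one (by positivity) h3 hj
    _ = 9 / 4 * ((p : ℝ) ^ 2)⁻¹ := by
        field_simp
        norm_num

open Classical in
/-- (CONT) few vectors have a large common prime divisor -/
lemma card_not_Co {j H w : ℕ} (hj : 2 ≤ j) (hw : 1 ≤ w) :
    (((tb j H).filter (fun r => ¬ Co w (FT r))).card : ℝ) ≤ 9 / 4 * (w : ℝ)⁻¹ * (tb j H).card := by
  have hsub : (tb j H).filter (fun r => ¬ Co w (FT r)) ⊆
      ((Ioc w H).filter Nat.Prime).biUnion (fun p => (tb j H).filter (fun r => ∀ i, (p : ℤ) ∣ r i)) := by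
    intro r hr
    rw [mem_filter] at hr
    obtain ⟨p, hp, hwp, hd⟩ := not_Co hr.2
    rw [mem_biUnion]
    refine ⟨p, ?_, mem_filter.2 ⟨hr.1, hd⟩⟩
    rw [mem_filter, mem_Ioc]
    refine ⟨⟨hwp, ?_⟩, hp⟩
    have h1 := hr.1
    unfold tb at h1
    rw [Fintype.mem_piFinset] at h1
    have h2 := h1 ⟨j - 1, by omega⟩
    simp only at h2
    rw [if_pos (by omega), mem_Icc] at h2
    have h3 := Int.le_of_dvd (by omega) (hd ⟨j - 1, by omega⟩)
    have h4 : (p : ℤ) ≤ H := h3.trans h2.2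
    exact_mod_cast h4
  have h1 : (((tb j H).filter (fun r => ¬ Co w (FT r))).card : ℝ) ≤
      ∑ p ∈ (Ioc w H).filter Nat.Prime, (((tb j H).filter (fun r => ∀ i, (p : ℤ) ∣ r i)).card : ℝ) := by
    exact_mod_cast (card_le_card hsub).trans card_biUnion_le
  refine h1.trans ?_
  calc ∑ p ∈ (Ioc w H).filter Nat.Prime, (((tb j H).filter (fun r => ∀ i, (p : ℤ) ∣ r i)).card : ℝ)
      ≤ ∑ p ∈ (Ioc w H).filter Nat.Prime, 9 / 4 * ((p : ℝ) ^ 2)⁻¹ * (tb j H).card := by
        refine sum_le_sum fun p hp => ?_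
        rw [mem_filter, mem_Ioc] at hp
        exact card_div hj hp.2.two_le hp.1.2
    _ = 9 / 4 * (∑ p ∈ (Ioc w H).filter Nat.Prime, ((p : ℝ) ^ 2)⁻¹) * (tb j H).card := by
        rw [mul_sum, sum_mul]
    _ ≤ 9 / 4 * (w : ℝ)⁻¹ * (tb j H).card := by
        refine mul_le_mul_of_nonneg_right ?_ (Nat.cast_nonneg _)
        exact mul_le_mul_of_nonneg_left (Pool.Agent.Y438.LW.sum_inv_sq_le w H hw) (by norm_num)

/-- passing from the fibres to the box -/
lemma box_of_fibres {j H w : ℕ} (hj : 2 ≤ j) (hw : 1 ≤ w) (P : (Fin (j + 1) → ℤ) → Prop)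
    [DecidablePred P] (t : ℝ) (ht : 0 ≤ t) (h : ∀ r ∈ tb j H, Co w (FT r) →
      (((Icc (-(H : ℤ)) H).filter (fun k => P (Fin.cons k r))).card : ℝ) ≤ t * (2 * H + 1)) :
    (((box j H).filter P).card : ℝ) ≤ (t + 9 / 4 * (w : ℝ)⁻¹) * (box j H).card := by
  classical
  rw [card_filter_box (by omega : 1 ≤ j), card_box_eq (by omega : 1 ≤ j)]
  push_cast
  rw [← sum_filter_add_sum_filter_not (tb j H) (fun r => Co w (FT r))]
  have h1 : ∑ r ∈ (tb j H).filter (fun r => Co w (FT r)),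
      (((Icc (-(H : ℤ)) H).filter (fun k => P (Fin.cons k r))).card : ℝ) ≤
      (tb j H).card * (t * (2 * H + 1)) := by
    calc _ ≤ ∑ r ∈ (tb j H).filter (fun r => Co w (FT r)), t * (2 * (H : ℝ) + 1) :=
          sum_le_sum fun r hr => h r (mem_filter.1 hr).1 (mem_filter.1 hr).2
      _ ≤ ∑ r ∈ tb j H, t * (2 * (H : ℝ) + 1) :=
          sum_le_sum_of_subset_of_nonneg (filter_subset _ _) fun _ _ _ => by positivity
      _ = _ := by rw [sum_const, nsmul_eq_mul]
  have h2 : ∑ r ∈ (tb j H).filter (fun r => ¬ Co w (FT r)),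
      (((Icc (-(H : ℤ)) H).filter (fun k => P (Fin.cons k r))).card : ℝ) ≤
      (9 / 4 * (w : ℝ)⁻¹ * (tb j H).card) * (2 * H + 1) := by
    calc _ ≤ ∑ r ∈ (tb j H).filter (fun r => ¬ Co w (FT r)), (2 * (H : ℝ) + 1) := by
          refine sum_le_sum fun r _ => ?_
          have h3 : ((Icc (-(H : ℤ)) H).filter (fun k => P (Fin.cons k r))).card ≤ 2 * H + 1 := by
            refine (card_filter_le _ _).trans ?_
            rw [Int.card_Icc]
            omega
          exact_mod_cast h3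
      _ = (((tb j H).filter (fun r => ¬ Co w (FT r))).card : ℝ) * (2 * H + 1) := by
          rw [sum_const, nsmul_eq_mul]
      _ ≤ _ := mul_le_mul_of_nonneg_right (card_not_Co hj hw) (by positivity)
  calc _ ≤ (tb j H).card * (t * (2 * (H : ℝ) + 1)) + (9 / 4 * (w : ℝ)⁻¹ * (tb j H).card) * (2 * H + 1) :=
        add_le_add h1 h2
    _ = _ := by ring

end Run7.h976.FX
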