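import Pool.Agent.Run7.h976.FX.Sz

/-!
# Almost all polynomials of degree `j ≥ 2` and height `H`: all windows
-/

set_option autoImplicit false

open Finset Polynomial Filter

namespace Run7.h976.FX

open Pool.Agent.TH892 (box pol pol_eval)
open Pool.Agent.H300R2.BH (SS rho pv lF)
open Pool.Agent.H300R2.FB (pa la)
open Pool.Agent.Y871.LW (rhoC SC)
open Pool.Agent.Y438.LW (Yf)
open Pool.Agent.H442R2.EHI (evt_log_pow evt_log_ge)

/-- the `n` in `(m, m + M]` such that `F(n)` is prime -/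
def PP (F : ℤ[X]) (m M : ℕ) : Finset ℕ :=
  (Ioc m (m + M)).filter (fun n : ℕ => (F.eval (n : ℤ)).toNat.Prime)

/-- the sum of `1 / log F(n)` over the `n` in `(m, m + M]` with `F(n) ≥ 2` -/
noncomputable def LL (F : ℤ[X]) (m M : ℕ) : ℝ :=
  ∑ n ∈ (Ioc m (m + M)).filter (fun n : ℕ => 2 ≤ F.eval (n : ℤ)), 1 / Real.log ((F.eval (n : ℤ) : ℤ) : ℝ)

lemma split_Icc (m M : ℕ) : Icc 1 (m + M) = Icc 1 m ∪ Ioc m (m + M) ∧
    Disjoint (Icc 1 m) (Ioc m (m + M)) := by
  constructor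
  · ext n
    rw [mem_union, mem_Icc, mem_Icc, mem_Ioc]
    omega
  · rw [disjoint_left]
    intro n h1 h2
    rw [mem_Icc] at h1
    rw [mem_Ioc] at h2
    omega

lemma pv_sub (F : ℤ[X]) (m M : ℕ) : ((PP F m M).card : ℝ) = pv F (m + M) - pv F m := by
  obtain ⟨h1, h2⟩ := split_Icc m M
  unfold pv PP
  rw [h1, filter_union, card_union_of_disjoint (disjoint_filter_filter h2)]
  push_cast
  ring

lemma lF_sub (F : ℤ[X]) (m M : ℕ) : LL F m M = lF F (m + M) - lF F m := by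
  obtain ⟨h1, h2⟩ := split_Icc m M
  unfold lF LL
  rw [h1, filter_union, sum_union (disjoint_filter_filter h2)]
  ring

lemma PP_sub (F : ℤ[X]) (m M : ℕ) : PP F m M ⊆ PA F m M := by
  intro n hn
  unfold PP at hn
  unfold PA
  rw [mem_filter] at hn ⊢
  refine ⟨hn.1, ?_⟩
  have h1 : (F.eval (n : ℤ)).natAbs = (F.eval (n : ℤ)).toNat := by
    have h2 := hn.2.pos
    omega
  rw [h1]
  exact hn.2

/-- lower bound for `LL` -/
lemma LL_lower {j H m M : ℕ} (hj : 1 ≤ j) {c : Fin (j + 1) → ℤ} (hc : c ∈ box j H) (K1 : ℕ)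
    (hK1 : ∀ n : ℕ, K1 < n → 0 ≤ (pol c).eval (n : ℤ)) (hH : j + 1 ≤ H) (hKH : m + M ≤ H)
    (hM : 2 * (K1 + 2 * j) ≤ M) :
    (M : ℝ) / (2 * (j + 2) * Real.log H) ≤ LL (pol c) m M := by
  classical
  have hH2 : 2 ≤ H := by omega
  have hHr : (2:ℝ) ≤ H := by exact_mod_cast hH2
  have hL : 0 < Real.log H := Real.log_pos (by linarith)
  unfold LL
  have hterm : ∀ k ∈ (Ioc m (m + M)).filter (fun k : ℕ => 2 ≤ (pol c).eval (k : ℤ)),
      1 / ((j + 2) * Real.log H) ≤ 1 / Real.log ((((pol c).eval (k : ℤ) : ℤ) : ℝ)) := by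
    intro k hk
    rw [mem_filter, mem_Ioc] at hk
    have h1 := Pool.Agent.TH892.eval_abs_le hc (show 1 ≤ k by omega) hk.1.2
    have h2 : (2:ℝ) ≤ (((pol c).eval (k : ℤ) : ℤ) : ℝ) := by exact_mod_cast hk.2
    have h3 : (((pol c).eval (k : ℤ) : ℤ) : ℝ) ≤ (H:ℝ) ^ (j + 2) := by
      have h4 : |(((pol c).eval (k : ℤ) : ℤ) : ℝ)| ≤ (j + 1) * (H * ((m + M : ℕ) : ℝ) ^ j) := by exact_mod_cast h1
      refine (le_abs_self _).trans (h4.trans ?_)
      have h5 : ((j:ℝ) + 1) ≤ H := by exact_mod_cast hH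
      have h6 : ((m + M : ℕ):ℝ) ≤ H := by exact_mod_cast hKH
      calc ((j:ℝ) + 1) * (H * ((m + M : ℕ) : ℝ) ^ j) ≤ H * (H * (H:ℝ) ^ j) := by gcongr
        _ = (H:ℝ) ^ (j + 2) := by ring
    apply one_div_le_one_div_of_le (Real.log_pos (by linarith))
    calc Real.log (((pol c).eval (k : ℤ) : ℤ) : ℝ) ≤ Real.log ((H:ℝ) ^ (j + 2)) :=
          Real.log_le_log (by linarith) h3
      _ = (j + 2) * Real.log H := by rw [Real.log_pow]; push_cast; ring
  have hcard : (M : ℝ) / 2 ≤ (((Ioc m (m + M)).filter (fun k : ℕ => 2 ≤ (pol c).eval (k : ℤ))).card : ℝ) := by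
    have h1 : (Ioc m (m + M)) ⊆ ((Ioc m (m + M)).filter (fun k : ℕ => 2 ≤ (pol c).eval (k : ℤ))) ∪
        ((Icc 1 K1) ∪ (((Icc 1 (m + M)).filter (fun n : ℕ => (pol c).eval (n : ℤ) = 0)) ∪
        ((Icc 1 (m + M)).filter (fun n : ℕ => (pol c).eval (n : ℤ) = 1)))) := by
      intro k hk
      have hk' := hk
      rw [mem_Ioc] at hk'
      simp only [mem_union, mem_filter, hk, true_and, mem_Icc]
      by_cases h : 2 ≤ (pol c).eval (k : ℤ)
      · exact Or.inl h
      · right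
        by_cases h2 : k ≤ K1
        · left; omega
        · right
          have h3 := hK1 k (by omega)
          omega
    have h2 := card_le_card h1
    rw [Nat.card_Ioc, Nat.add_sub_cancel_left] at h2
    have h3 := h2.trans (card_union_le _ _)
    have h4 := card_union_le (Icc 1 K1) (((Icc 1 (m + M)).filter (fun n : ℕ => (pol c).eval (n : ℤ) = 0)) ∪
        ((Icc 1 (m + M)).filter (fun n : ℕ => (pol c).eval (n : ℤ) = 1)))
    have h5 := card_union_le ((Icc 1 (m + M)).filter (fun n : ℕ => (pol c).eval (n : ℤ) = 0))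
      ((Icc 1 (m + M)).filter (fun n : ℕ => (pol c).eval (n : ℤ) = 1))
    have h6 := Pool.Agent.TH892.card_eq_le hj hc 0 (m + M)
    have h7 := Pool.Agent.TH892.card_eq_le hj hc 1 (m + M)
    rw [Nat.card_Icc, Nat.add_sub_cancel] at h4
    have h9 : M ≤ 2 * ((Ioc m (m + M)).filter (fun k : ℕ => 2 ≤ (pol c).eval (k : ℤ))).card := by omega
    have h10 : (M:ℝ) ≤ 2 * (((Ioc m (m + M)).filter (fun k : ℕ => 2 ≤ (pol c).eval (k : ℤ))).card : ℝ) := by
      exact_mod_cast h9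
    linarith
  calc (M : ℝ) / (2 * (j + 2) * Real.log H) = (M / 2) * (1 / ((j + 2) * Real.log H)) := by
        field_simp
    _ ≤ (((Ioc m (m + M)).filter (fun k : ℕ => 2 ≤ (pol c).eval (k : ℤ))).card : ℝ) *
        (1 / ((j + 2) * Real.log H)) := by gcongr
    _ = ∑ _k ∈ (Ioc m (m + M)).filter (fun k : ℕ => 2 ≤ (pol c).eval (k : ℤ)),
        1 / ((j + 2) * Real.log H) := by rw [sum_const, nsmul_eq_mul]
    _ ≤ _ := sum_le_sum hterm

lemma la_le (F : ℤ[X]) (K : ℕ) : la F K ≤ 2 * K := by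
  unfold la
  calc _ ≤ ∑ k ∈ (Icc 1 K).filter (fun k : ℕ => 2 ≤ |F.eval (k : ℤ)|), (2:ℝ) :=
        sum_le_sum fun k hk => (Pool.Agent.H300R2.FB.la_term F k (mem_filter.mp hk).2).2
    _ ≤ ∑ k ∈ Icc 1 K, (2:ℝ) :=
        sum_le_sum_of_subset_of_nonneg (filter_subset _ _) fun _ _ _ => by norm_num
    _ = 2 * K := by rw [sum_const, Nat.card_Icc, nsmul_eq_mul, Nat.add_sub_cancel]; ring

/-- the error at one end of a window -/
lemma end_err {F : ℤ[X]} {K K1 : ℕ} {S L Mr : ℝ} {A V : ℕ}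
    (hK1 : ∀ k : ℕ, K1 < k → 0 ≤ F.eval (k : ℤ))
    (hS : 1 / L ≤ S) (hL : 2 ≤ L) (hK1M : 2 * L * (K1 : ℝ) ≤ Mr / L ^ V)
    (hKM : (K : ℝ) ≤ 2 * Mr * L ^ A)
    (h : |pa F K - S * la F K| ≤ S * la F K / L ^ (A + V)) :
    |pv F K - S * lF F K| ≤ 5 * (S * Mr / L ^ V) := by
  obtain ⟨h1, h2, h3⟩ := Pool.Agent.H300R2.FB.abs_conv F K K1 (fun k hk _ => hK1 k hk)
  have hL0 : 0 < L := by linarith
  have hS0 : 0 < S := lt_of_lt_of_le (by positivity) hS
  have hSL : 1 ≤ S * L := by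
    rw [div_le_iff₀ hL0] at hS
    exact hS
  have hla := la_le F K
  have e1 : S * la F K / L ^ (A + V) ≤ 4 * (S * Mr / L ^ V) := by
    calc S * la F K / L ^ (A + V) ≤ S * (2 * (2 * Mr * L ^ A)) / L ^ (A + V) := by
          gcongr
          linarith
      _ = 4 * (S * Mr / L ^ V) := by
          rw [pow_add]
          field_simp
          ring
  have hK10 : (0 : ℝ) ≤ K1 := Nat.cast_nonneg _
  have e2 : (K1 : ℝ) + S * (2 * K1) ≤ S * Mr / L ^ V := by
    have e3 : (K1 : ℝ) ≤ (S * L) * K1 := le_mul_of_one_le_left hK10 hSL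
    have e4 : S * (2 * K1) ≤ (S * L) * K1 := by
      calc S * (2 * K1) = 2 * (S * K1) := by ring
        _ ≤ L * (S * K1) := mul_le_mul_of_nonneg_right hL (by positivity)
        _ = _ := by ring
    calc (K1 : ℝ) + S * (2 * K1) ≤ (S * L) * K1 + (S * L) * K1 := add_le_add e3 e4
      _ = S * (2 * L * K1) := by ring
      _ ≤ S * (Mr / L ^ V) := mul_le_mul_of_nonneg_left hK1M hS0.le
      _ = _ := by ring
  have e4 : pv F K - S * lF F K = -(pa F K - pv F K) + (pa F K - S * la F K) + S * (la F K - lF F K) := by ring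
  rw [e4]
  refine (abs_add_le _ _).trans ?_
  refine (add_le_add (abs_add_le _ _) le_rfl).trans ?_
  rw [abs_neg, abs_of_nonneg (mul_nonneg hS0.le h2)]
  have e5 : S * (la F K - lF F K) ≤ S * (2 * K1) := mul_le_mul_of_nonneg_left h3 hS0.le
  linarith

/-- the error at a small end of a window -/
lemma end_err_small {F : ℤ[X]} {K : ℕ} {S L Mr : ℝ} {V : ℕ} (hS : 1 / L ≤ S) (hL : 2 ≤ L)
    (hKM : 2 * L * (K : ℝ) ≤ Mr / L ^ V) :
    |pv F K - S * lF F K| ≤ S * Mr / L ^ V := by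
  obtain ⟨h1, h2⟩ := Pool.Agent.H300R2.FB.pv_bounds F K
  obtain ⟨h3, h4⟩ := Pool.Agent.H300R2.FB.lF_bounds F K
  have hL0 : 0 < L := by linarith
  have hS0 : 0 < S := lt_of_lt_of_le (by positivity) hS
  have hSL : 1 ≤ S * L := by
    rw [div_le_iff₀ hL0] at hS
    exact hS
  have hK0 : (0 : ℝ) ≤ K := Nat.cast_nonneg _
  have e4 : (K : ℝ) + S * (2 * K) ≤ S * Mr / L ^ V := by
    have e3 : (K : ℝ) ≤ (S * L) * K := le_mul_of_one_le_left hK0 hSL
    have e4 : S * (2 * K) ≤ (S * L) * K := by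
      calc S * (2 * K) = 2 * (S * K) := by ring
        _ ≤ L * (S * K) := mul_le_mul_of_nonneg_right hL (by positivity)
        _ = _ := by ring
    calc (K : ℝ) + S * (2 * K) ≤ (S * L) * K + (S * L) * K := add_le_add e3 e4
      _ = S * (2 * L * K) := by ring
      _ ≤ S * (Mr / L ^ V) := mul_le_mul_of_nonneg_left hKM hS0.le
      _ = _ := by ring
  have e5 : S * lF F K ≤ S * (2 * K) := mul_le_mul_of_nonneg_left h4 hS0.le
  have e6 : 0 ≤ S * lF F K := mul_nonneg hS0.le h3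
  rw [abs_le]
  constructor <;> linarith

lemma toNat_cast {x : ℤ} (hx : 0 ≤ x) : ((x.toNat : ℕ) : ℝ) = ((x : ℤ) : ℝ) := by
  exact_mod_cast Int.toNat_of_nonneg hx

/-- few vectors have a small last coordinate -/
lemma small_last {j H : ℕ} (κ : ℝ) (hκ : 0 ≤ κ) :
    (((box j H).filter (fun c => ((c (Fin.last j) : ℤ) : ℝ) ≤ κ * H)).card : ℝ) ≤ κ * (box j H).card := by
  classical
  obtain ⟨s, hs⟩ : ∃ s : Fin (j + 1) → Finset ℤ, s = fun i : Fin (j + 1) =>
    if (i : ℕ) = j then Icc 1 (H : ℤ) else Icc (-(H : ℤ)) H := ⟨_, rfl⟩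
  have hbox : box j H = Fintype.piFinset s := by rw [hs]; rfl
  obtain ⟨s', hs'⟩ : ∃ s' : Fin (j + 1) → Finset ℤ, s' = fun i : Fin (j + 1) =>
    if (i : ℕ) = j then Icc 1 ((⌊κ * H⌋₊ : ℕ) : ℤ) else Icc (-(H : ℤ)) H := ⟨_, rfl⟩
  have hsub : (box j H).filter (fun c => ((c (Fin.last j) : ℤ) : ℝ) ≤ κ * H) ⊆ Fintype.piFinset s' := by
    intro c hc
    rw [mem_filter, hbox, Fintype.mem_piFinset] at hc
    rw [Fintype.mem_piFinset]
    intro i
    have h1 := hc.1 i
    rw [hs] at h1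
    rw [hs']
    simp only at h1 ⊢
    split_ifs at h1 ⊢ with hi
    · rw [mem_Icc] at h1 ⊢
      refine ⟨h1.1, ?_⟩
      have hil : i = Fin.last j := Fin.ext (by rw [hi]; simp)
      have h2 := hc.2
      rw [← hil] at h2
      have h3 : (c i).toNat ≤ ⌊κ * H⌋₊ := by
        apply Nat.le_floor
        rw [toNat_cast (by omega)]
        exact h2
      omega
    · exact h1
  have h1 : (((box j H).filter (fun c => ((c (Fin.last j) : ℤ) : ℝ) ≤ κ * H)).card : ℝ) ≤
      ∏ i, ((s' i).card : ℝ) := by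
    have := card_le_card hsub
    rw [Fintype.card_piFinset] at this
    exact_mod_cast this
  refine h1.trans ?_
  rw [hbox, Fintype.card_piFinset]
  push_cast
  rw [Fin.prod_univ_castSucc, Fin.prod_univ_castSucc]
  have h2 : ∀ i : Fin j, s' i.castSucc = s i.castSucc := by
    intro i
    rw [hs, hs']
    have : ¬ ((i.castSucc : Fin (j + 1)) : ℕ) = j := by
      have := i.2
      simp only [Fin.val_castSucc]
      omega
    simp only [if_neg this]
  have h3 : ((s' (Fin.last j)).card : ℝ) ≤ κ * ((s (Fin.last j)).card : ℝ) := by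
    rw [hs, hs']
    simp only [Fin.val_last, if_true, Int.card_Icc]
    have e1 : (((⌊κ * H⌋₊ : ℕ) : ℤ) + 1 - 1).toNat = ⌊κ * (H : ℝ)⌋₊ := by omega
    have e2 : ((H : ℤ) + 1 - 1).toNat = H := by omega
    rw [e1, e2]
    exact Nat.floor_le (by positivity)
  simp only [h2]
  have h4 : (0 : ℝ) ≤ ∏ i : Fin j, ((s i.castSucc).card : ℝ) := prod_nonneg fun i _ => Nat.cast_nonneg _
  calc (∏ i : Fin j, ((s i.castSucc).card : ℝ)) * ((s' (Fin.last j)).card : ℝ)
      ≤ (∏ i : Fin j, ((s i.castSucc).card : ℝ)) * (κ * ((s (Fin.last j)).card : ℝ)) :=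
        mul_le_mul_of_nonneg_left h3 h4
    _ = _ := by ring

/-- the local conditions for one polynomial -/
def Loc (j z y : ℕ) (F : ℤ[X]) : Prop :=
  (∀ p : ℕ, p.Prime → p ≤ y → rho F p ≤ j ∧ rho F p < p) ∧
  ∏ p ∈ (Ioc z y).filter Nat.Prime, (1 - (rho F p : ℝ) / p) / (1 - 1 / (p : ℝ)) ≤ Real.exp 3

lemma prod_cons {j : ℕ} (k : ℤ) (r : Fin j → ℤ) (z y : ℕ) :
    ∏ p ∈ (Ioc z y).filter Nat.Prime,
      (1 - (rho (pol (Fin.cons k r : Fin (j + 1) → ℤ)) p : ℝ) / p) / (1 - 1 / (p : ℝ)) =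
    ∏ p ∈ (Ioc z y).filter Nat.Prime, ((p : ℝ) - rhoC (FT r) k p) / ((p : ℝ) - 1) := by
  apply prod_congr rfl
  intro p hp
  have hp2 := (mem_filter.1 hp).2.two_le
  have hpr : (2 : ℝ) ≤ p := by exact_mod_cast hp2
  have h1 : (p : ℝ) ≠ 0 := by linarith
  have h2 : (p : ℝ) - 1 ≠ 0 := by linarith
  have h3 : (1 : ℝ) - 1 / p ≠ 0 := by
    rw [one_sub_div h1]
    exact div_ne_zero h2 h1
  rw [rho_cons]
  field_simp

/-- the local conditions hold for all but few polynomials without local obstruction -/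
lemma loc_box {j H z y : ℕ} (hj : 2 ≤ j) (hjz : j ≤ z) (Q : (Fin (j + 1) → ℤ) → Prop) [DecidablePred Q]
    (hQ : ∀ c ∈ box j H, Q c → (∀ p : ℕ, p.Prime → p ≤ z → rho (pol c) p ≠ p) ∧ ¬ Loc j z y (pol c)) :
    (((box j H).filter Q).card : ℝ) ≤
      (((j : ℝ) + 1) ^ 2 * (z : ℝ)⁻¹ + 3 * (y : ℝ) ^ 2 / (2 * H + 1) + 9 / 4 * (z : ℝ)⁻¹) * (box j H).card := by
  classical
  have hz : 1 ≤ z := by omega
  refine box_of_fibres (w := z) hj hz Q (((j : ℝ) + 1) ^ 2 * (z : ℝ)⁻¹ + 3 * (y : ℝ) ^ 2 / (2 * H + 1))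
    (by positivity) ?_
  intro r hr hCo
  have h1 := Yf_large (FT r) (FT_natDegree_le r) H z y hCo hz
  have h2 : (Icc (-(H : ℤ)) H).filter (fun k => Q (Fin.cons k r)) ⊆
      (Icc (-(H : ℤ)) H).filter (fun k => 1 < |Yf (FT r) z y k|) := by
    intro k hk
    rw [mem_filter] at hk ⊢
    refine ⟨hk.1, ?_⟩
    by_contra hcon
    push Not at hcon
    obtain ⟨h3, h4⟩ := hQ _ ((mem_box_cons (by omega) k r).2 ⟨hk.1, hr⟩) hk.2
    apply h4
    constructor
    · intro p hp hpy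
      by_cases hpz : p ≤ z
      · have hne := h3 p hp hpz
        refine ⟨Pool.Agent.H338R2.BH.rho_le_deg _ _ _ hp (Pool.Agent.TH892.pol_natDegree_le _) hne, ?_⟩
        refine lt_of_le_of_ne ?_ hne
        unfold rho
        exact (card_filter_le _ _).trans_eq (card_range _)
      · rw [rho_cons]
        have h5 := rho_le (FT r) (FT_natDegree_le r) k p hp (hCo p hp (by omega))
        exact ⟨h5, by omega⟩
    · rw [prod_cons]
      refine (prod_le (FT r) k z y hz).trans (Real.exp_le_exp.2 ?_)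
      have := (abs_le.1 hcon).1
      linarith
  refine le_trans (by exact_mod_cast card_le_card h2) (h1.trans (le_of_eq ?_))
  have : (2 * (H : ℝ) + 1) ≠ 0 := by positivity
  field_simp

/-- **Almost all polynomials, all windows.** -/
theorem box_main (j k : ℕ) (hj : 2 ≤ j) (θ ε : ℝ) (hθ : 0 < θ) (hε : 0 < ε) (U A : ℕ) :
    ∃ E₁ : ℕ, ∀ E : ℕ, E₁ ≤ E → ∃ B H₀ : ℕ, ∀ H : ℕ, H₀ ≤ H →
      ∃ Bad ⊆ box j H, (Bad.card : ℝ) ≤ (box j H).card / Real.log H ^ U ∧
      ∀ c ∈ box j H, c ∉ Bad → (∀ p : ℕ, p.Prime → p ≤ ⌊Real.log H ^ E⌋₊ → rho (pol c) p ≠ p) →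
        0 < SS ⌊Real.log H ^ E⌋₊ (pol c) ∧
        ∀ m M : ℕ, (H : ℝ) ^ θ ≤ M → (m : ℝ) ≤ M * Real.log H ^ A →
        ((m : ℝ) + M) * Real.log H ^ B ≤ H →
        0 < LL (pol c) m M ∧
        |((PP (pol c) m M).card : ℝ) - SS ⌊Real.log H ^ E⌋₊ (pol c) * LL (pol c) m M| ≤
          SS ⌊Real.log H ^ E⌋₊ (pol c) * LL (pol c) m M / Real.log H ^ U ∧
        0 < (PP (pol c) m M).card ∧
        ∀ T ⊆ PP (pol c) m M, Free T k (Real.log H ^ B) → (T.card : ℝ) ≤ ε * (PP (pol c) m M).card := by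
  classical
  obtain ⟨E1, hE1⟩ := Pool.Agent.TH892.exc_box j (by omega) (θ / 2) (by positivity) (A + (U + 4))
  obtain ⟨c₂, hc₂, hSSl⟩ := Pool.Agent.H300R2.BH.SS_lower j (by omega)
  obtain ⟨B₂, H₂, hszem⟩ := szem j k (by omega) θ (1 / (4 * (j + 2))) ε hθ (by positivity) hε
  obtain ⟨θ₁, hθ₁⟩ : ∃ θ₁ : ℝ, θ₁ = min θ 1 / 4 := ⟨_, rfl⟩
  have hθ₁0 : 0 < θ₁ := by rw [hθ₁]; have := lt_min hθ one_pos; linarith
  have hθ₁1 : θ₁ ≤ 1 / 4 := by rw [hθ₁]; have := min_le_right θ 1; linarith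
  refine ⟨max E1 (U + 2), fun E hE => ?_⟩
  have hEE1 : E1 ≤ E := (le_max_left _ _).trans hE
  have hEU : U + 2 ≤ E := (le_max_right _ _).trans hE
  obtain ⟨B₁, H₁, hexc⟩ := hE1 E hEE1
  have hlogs : ∀ᶠ x : ℕ in atTop, (E * Real.log (Real.log x)) ^ (2 * j) ≤ c₂ * Real.log x := by
    have h1 : (fun t : ℝ => Real.log t ^ (2 * j)) =o[atTop] fun t : ℝ => t :=
      Real.isLittleO_pow_log_id_atTop
    have h2 := h1.bound (show (0:ℝ) < c₂ / (1 + (E : ℝ)) ^ (2 * j) by positivity)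
    have h3 := (Real.tendsto_log_atTop.comp (tendsto_natCast_atTop_atTop (R := ℝ))).eventually h2
    filter_upwards [h3, evt_log_ge (Real.exp 1)] with x hx hx2
    simp only [Function.comp] at hx
    have ht0 : 0 < Real.log x := lt_of_lt_of_le (Real.exp_pos 1) hx2
    have hl : 1 ≤ Real.log (Real.log x) := by
      rw [Real.le_log_iff_exp_le ht0]; exact hx2
    rw [Real.norm_of_nonneg (by positivity), Real.norm_of_nonneg ht0.le] at hx
    calc (E * Real.log (Real.log x)) ^ (2 * j) ≤ ((1 + E) * Real.log (Real.log x)) ^ (2 * j) := by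
          gcongr
          linarith
      _ = (1 + (E : ℝ)) ^ (2 * j) * Real.log (Real.log x) ^ (2 * j) := by rw [mul_pow]
      _ ≤ (1 + (E : ℝ)) ^ (2 * j) * (c₂ / (1 + (E : ℝ)) ^ (2 * j) * Real.log x) := by gcongr
      _ = c₂ * Real.log x := by field_simp
  have hev : ∀ᶠ H : ℕ in atTop, 100 + 40 * ((j : ℝ) + 1) ^ 2 ≤ Real.log H ∧
      Real.log H ^ (U + 6 + (U + 6)) ≤ (H : ℝ) ^ (θ / 2) ∧
      Real.log H ^ (E + 1) ≤ (H : ℝ) ^ θ₁ ∧ Real.log H ^ (U + 2) ≤ (H : ℝ) ^ (1 / 2 : ℝ) ∧ j + 3 ≤ H ∧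
      (E * Real.log (Real.log H)) ^ (2 * j) ≤ c₂ * Real.log H := by
    filter_upwards [evt_log_ge (100 + 40 * ((j : ℝ) + 1) ^ 2),
      evt_log_pow (U + 6 + (U + 6)) (θ / 2) (by positivity),
      evt_log_pow (E + 1) θ₁ hθ₁0, evt_log_pow (U + 2) (1 / 2) (by norm_num),
      eventually_ge_atTop (j + 3), hlogs] with H h1 h2 h3 h4 h5 h6
    exact ⟨h1, h2, h3, h4, h5, h6⟩
  obtain ⟨H₃, hH₃⟩ := eventually_atTop.1 hev
  refine ⟨max B₁ B₂, max (max H₁ H₂) H₃, fun H hH => ?_⟩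
  have g1 : H₁ ≤ H := ((le_max_left _ _).trans (le_max_left _ _)).trans hH
  have g2 : H₂ ≤ H := ((le_max_right _ _).trans (le_max_left _ _)).trans hH
  obtain ⟨hL, hLU, hLE, hLU2, hjH, hll⟩ := hH₃ H ((le_max_right _ _).trans hH)
  obtain ⟨L, hLd⟩ : ∃ L, L = Real.log H := ⟨_, rfl⟩
  obtain ⟨z, hz⟩ : ∃ z, z = ⌊L ^ E⌋₊ := ⟨_, rfl⟩
  obtain ⟨y, hy⟩ : ∃ y, y = ⌊(H : ℝ) ^ θ₁⌋₊ := ⟨_, rfl⟩
  have hexc' := hexc H g1
  have hszem' := hszem H g2 y (by rw [hy, hθ₁])
  rw [← hLd] at hL hLU hLE hLU2 hll hexc' hszem'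
  rw [← hz] at hexc'
  rw [← hLd, ← hz]
  have hj2 : (2 : ℝ) ≤ j := by exact_mod_cast hj
  have hjq : 0 < ((j : ℝ) + 1) ^ 2 := by positivity
  have hL100 : 100 ≤ L := by linarith
  have hL0 : 0 < L := by linarith
  have hL1 : 1 ≤ L := by linarith
  have hLj : 40 * ((j : ℝ) + 1) ^ 2 ≤ L := by linarith
  have hjL : (j : ℝ) + 2 ≤ L := by nlinarith
  have hHr : (5 : ℝ) ≤ H := by
    have : 5 ≤ H := by omega
    exact_mod_cast this
  have hH0 : (0 : ℝ) < H := by linarith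
  have hLE1 : L ≤ L ^ E := le_self_pow₀ hL1 (by omega)
  have hzle : (z : ℝ) ≤ L ^ E := by rw [hz]; exact Nat.floor_le (by positivity)
  have hzge : L ^ E / 2 ≤ z := by
    have := Nat.lt_floor_add_one (L ^ E)
    rw [← hz] at this
    linarith
  have hz3 : 3 ≤ z := by
    have : (3 : ℝ) ≤ z := by linarith
    exact_mod_cast this
  have hjz : j ≤ z := by
    have : (j : ℝ) ≤ z := by nlinarith
    exact_mod_cast this
  have hz0 : (0 : ℝ) < z := by linarith
  have hzy : z ≤ y := by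
    rw [hy]
    apply Nat.le_floor
    refine hzle.trans (le_trans ?_ hLE)
    exact pow_le_pow_right₀ hL1 (by omega)
  have hyH : (y : ℝ) ^ 2 ≤ (H : ℝ) ^ (1 / 2 : ℝ) := by
    have h1 : (y : ℝ) ≤ (H : ℝ) ^ (1 / 4 : ℝ) := by
      rw [hy]
      exact (Nat.floor_le (by positivity)).trans
        (Real.rpow_le_rpow_of_exponent_le (by linarith) hθ₁1)
    calc (y : ℝ) ^ 2 ≤ ((H : ℝ) ^ (1 / 4 : ℝ)) ^ 2 := pow_le_pow_left₀ (Nat.cast_nonneg _) h1 2
      _ = (H : ℝ) ^ (1 / 2 : ℝ) := by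
        rw [← Real.rpow_natCast, ← Real.rpow_mul hH0.le]
        norm_num
  have hB1 : L ^ B₁ ≤ L ^ (max B₁ B₂) := pow_le_pow_right₀ hL1 (le_max_left _ _)
  have hB2 : L ^ B₂ ≤ L ^ (max B₁ B₂) := pow_le_pow_right₀ hL1 (le_max_right _ _)
  have hBB1 : 1 ≤ L ^ (max B₁ B₂) := one_le_pow₀ hL1
  -- the exceptional sets
  obtain ⟨Q1, hQ1⟩ : ∃ Q1 : (Fin (j + 1) → ℤ) → Prop, Q1 = fun c =>
    (∀ p : ℕ, p.Prime → p ≤ z → rho (pol c) p ≠ p) ∧
      ∃ K : ℕ, (H : ℝ) ^ (θ / 2) ≤ K ∧ (K : ℝ) * L ^ B₁ ≤ H ∧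
        SS z (pol c) * la (pol c) K / L ^ (A + (U + 4)) <
        |pa (pol c) K - SS z (pol c) * la (pol c) K| := ⟨_, rfl⟩
  obtain ⟨Q2, hQ2⟩ : ∃ Q2 : (Fin (j + 1) → ℤ) → Prop, Q2 = fun c =>
    (∀ p : ℕ, p.Prime → p ≤ z → rho (pol c) p ≠ p) ∧ ¬ Loc j z y (pol c) := ⟨_, rfl⟩
  obtain ⟨Q3, hQ3⟩ : ∃ Q3 : (Fin (j + 1) → ℤ) → Prop, Q3 = fun c =>
    ((c (Fin.last j) : ℤ) : ℝ) ≤ (1 / L ^ (U + 1)) * H := ⟨_, rfl⟩
  have n1 : (((box j H).filter Q1).card : ℝ) ≤ ((box j H).card : ℝ) / L ^ (A + (U + 4)) :=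
    hexc' Q1 (by intro c _ h; rw [hQ1] at h; exact h)
  have n2 : (((box j H).filter Q2).card : ℝ) ≤ (((j : ℝ) + 1) ^ 2 * (z : ℝ)⁻¹ +
      3 * (y : ℝ) ^ 2 / (2 * H + 1) + 9 / 4 * (z : ℝ)⁻¹) * (box j H).card :=
    loc_box hj hjz Q2 (by intro c _ h; rw [hQ2] at h; exact h)
  have n3 : (((box j H).filter Q3).card : ℝ) ≤ (1 / L ^ (U + 1)) * (box j H).card := by
    have h := small_last (j := j) (H := H) (1 / L ^ (U + 1)) (by positivity)
    rw [hQ3]
    convert h
  refine ⟨(box j H).filter Q1 ∪ ((box j H).filter Q2 ∪ (box j H).filter Q3),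
    union_subset (filter_subset _ _) (union_subset (filter_subset _ _) (filter_subset _ _)), ?_, ?_⟩
  · have hb0 : (0 : ℝ) ≤ (box j H).card := Nat.cast_nonneg _
    have n0 : (((box j H).filter Q1 ∪ ((box j H).filter Q2 ∪ (box j H).filter Q3)).card : ℝ) ≤
        ((box j H).filter Q1).card + (((box j H).filter Q2).card + ((box j H).filter Q3).card) := by
      exact_mod_cast (card_union_le _ _).trans (Nat.add_le_add_left (card_union_le _ _) _)
    have hLU0 : 0 < L ^ U := by positivity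
    have m1 : ((box j H).card : ℝ) / L ^ (A + (U + 4)) ≤ 1 / 4 * ((box j H).card / L ^ U) := by
      have h1 : L ^ U * 4 ≤ L ^ (A + (U + 4)) := by
        calc L ^ U * 4 ≤ L ^ U * L := mul_le_mul_of_nonneg_left (by linarith) hLU0.le
          _ = L ^ (U + 1) := by ring
          _ ≤ L ^ (A + (U + 4)) := pow_le_pow_right₀ hL1 (by omega)
      calc ((box j H).card : ℝ) / L ^ (A + (U + 4)) ≤ (box j H).card / (L ^ U * 4) :=
            div_le_div_of_nonneg_left hb0 (by positivity) h1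
        _ = _ := by field_simp
    have m3 : (1 / L ^ (U + 1)) * ((box j H).card : ℝ) ≤ 1 / 4 * ((box j H).card / L ^ U) := by
      have h1 : 1 / L ^ (U + 1) ≤ 1 / 4 * (1 / L ^ U) := by
        rw [div_mul_div_comm, one_mul]
        apply div_le_div_of_nonneg_left (by norm_num) (by positivity)
        rw [pow_succ]
        nlinarith
      calc (1 / L ^ (U + 1)) * ((box j H).card : ℝ) ≤ (1 / 4 * (1 / L ^ U)) * (box j H).card :=
            mul_le_mul_of_nonneg_right h1 hb0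
        _ = _ := by ring
    have m2 : (((j : ℝ) + 1) ^ 2 * (z : ℝ)⁻¹ + 3 * (y : ℝ) ^ 2 / (2 * H + 1) + 9 / 4 * (z : ℝ)⁻¹) *
        (box j H).card ≤ 1 / 4 * ((box j H).card / L ^ U) := by
      have hzi : (z : ℝ)⁻¹ ≤ 2 / (L ^ U * L ^ 2) := by
        rw [inv_eq_one_div, div_le_div_iff₀ hz0 (by positivity)]
        have h1 : L ^ U * L ^ 2 ≤ L ^ E := by
          rw [← pow_add]
          exact pow_le_pow_right₀ hL1 hEU
        linarith
      have hyi : 3 * (y : ℝ) ^ 2 / (2 * H + 1) ≤ 3 / (L ^ U * L ^ 2) := by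
        rw [div_le_div_iff₀ (by positivity) (by positivity)]
        have h1 : (H : ℝ) ^ (1 / 2 : ℝ) * (H : ℝ) ^ (1 / 2 : ℝ) = H := by
          rw [← Real.rpow_add hH0]
          norm_num
        have h2 : (y : ℝ) ^ 2 * (L ^ U * L ^ 2) ≤ H := by
          calc (y : ℝ) ^ 2 * (L ^ U * L ^ 2) ≤ (H : ℝ) ^ (1 / 2 : ℝ) * (H : ℝ) ^ (1 / 2 : ℝ) := by
                rw [← pow_add]
                exact mul_le_mul hyH hLU2 (by positivity) (by positivity)
            _ = H := h1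
        linarith
      have h3 : ((j : ℝ) + 1) ^ 2 * (z : ℝ)⁻¹ + 3 * (y : ℝ) ^ 2 / (2 * H + 1) + 9 / 4 * (z : ℝ)⁻¹ ≤
          1 / 4 * (1 / L ^ U) := by
        have h4 : ((j : ℝ) + 1) ^ 2 * (z : ℝ)⁻¹ ≤ ((j : ℝ) + 1) ^ 2 * (2 / (L ^ U * L ^ 2)) :=
          mul_le_mul_of_nonneg_left hzi hjq.le
        have h5 : 9 / 4 * (z : ℝ)⁻¹ ≤ 9 / 4 * (2 / (L ^ U * L ^ 2)) :=
          mul_le_mul_of_nonneg_left hzi (by norm_num)
        have h6 : ((j : ℝ) + 1) ^ 2 * (2 / (L ^ U * L ^ 2)) + 3 / (L ^ U * L ^ 2) +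
            9 / 4 * (2 / (L ^ U * L ^ 2)) = (2 * ((j : ℝ) + 1) ^ 2 + 3 + 9 / 2) / L ^ 2 * (1 / L ^ U) := by
          field_simp
          ring
        have h7 : (2 * ((j : ℝ) + 1) ^ 2 + 3 + 9 / 2) / L ^ 2 ≤ 1 / 4 := by
          rw [div_le_iff₀ (by positivity)]
          nlinarith
        have h8 : (2 * ((j : ℝ) + 1) ^ 2 + 3 + 9 / 2) / L ^ 2 * (1 / L ^ U) ≤ 1 / 4 * (1 / L ^ U) :=
          mul_le_mul_of_nonneg_right h7 (by positivity)
        linarith
      calc _ ≤ (1 / 4 * (1 / L ^ U)) * ((box j H).card : ℝ) := mul_le_mul_of_nonneg_right h3 hb0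
        _ = _ := by ring
    have h0 : 0 ≤ ((box j H).card : ℝ) / L ^ U := by positivity
    linarith
  · intro c hc hcB hadm
    rw [mem_union, mem_union, not_or, not_or, mem_filter, mem_filter, mem_filter] at hcB
    obtain ⟨b1, b2, b3⟩ := hcB
    -- the singular series
    have hS : 1 / L ≤ SS z (pol c) := by
      refine le_trans ?_ (hSSl z hz3 (pol c) (Pool.Agent.TH892.pol_natDegree_le c) hadm)
      have hlz0 : 0 < Real.log z := Real.log_pos (by
        have : (3 : ℝ) ≤ z := by exact_mod_cast hz3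
        linarith)
      have hlz : Real.log z ≤ E * Real.log L := by
        rw [← Real.log_pow]
        exact Real.log_le_log hz0 hzle
      rw [div_le_div_iff₀ hL0 (by positivity), one_mul]
      exact (pow_le_pow_left₀ hlz0.le hlz _).trans hll
    obtain ⟨S, hSd⟩ : ∃ S, S = SS z (pol c) := ⟨_, rfl⟩
    have hS0 : 0 < SS z (pol c) := lt_of_lt_of_le (by positivity) hS
    refine ⟨hS0, fun m M hM hmM hmH => ?_⟩
    have hloc : Loc j z y (pol c) := by
      by_contra hcon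
      exact b2 ⟨hc, by rw [hQ2]; exact ⟨hadm, hcon⟩⟩
    -- the leading coefficient
    have hlast : 1 / L ^ (U + 1) * H < ((c (Fin.last j) : ℤ) : ℝ) := by
      by_contra hcon
      push Not at hcon
      exact b3 ⟨hc, by rw [hQ3]; exact hcon⟩
    obtain ⟨K1, hK1⟩ : ∃ K1 : ℕ, K1 = j * H / (c (Fin.last j)).toNat := ⟨_, rfl⟩
    have hcl1 : 1 ≤ c (Fin.last j) := by
      unfold Pool.Agent.TH892.box at hc
      rw [Fintype.mem_piFinset] at hc
      have h2 := hc (Fin.last j)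
      rw [Fin.val_last, if_pos rfl, mem_Icc] at h2
      exact h2.1
    have hK1r : (K1 : ℝ) ≤ j * L ^ (U + 1) := by
      have h1 : (((c (Fin.last j)).toNat : ℕ) : ℝ) = ((c (Fin.last j) : ℤ) : ℝ) :=
        toNat_cast (by omega)
      have h2 : (K1 : ℝ) ≤ ((j * H : ℕ) : ℝ) / (((c (Fin.last j)).toNat : ℕ) : ℝ) := by
        rw [hK1]; exact Nat.cast_div_le
      refine h2.trans ?_
      have h4 : 0 < 1 / L ^ (U + 1) * H := by positivity
      rw [h1, div_le_iff₀ (h4.trans hlast)]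
      push_cast
      have h5 : (j : ℝ) * H = j * L ^ (U + 1) * (1 / L ^ (U + 1) * H) := by
        field_simp
      rw [h5]
      exact mul_le_mul_of_nonneg_left hlast.le (by positivity)
    have hpos : ∀ n : ℕ, K1 < n → 0 ≤ (pol c).eval (n : ℤ) := by
      intro n hn
      refine Pool.Agent.TH892.eval_nonneg (by omega) hc ?_
      rw [← hK1]
      exact hn
    -- sizes
    have hM0 : (0 : ℝ) ≤ M := Nat.cast_nonneg _
    have hm0 : (0 : ℝ) ≤ m := Nat.cast_nonneg _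
    obtain ⟨R, hR⟩ : ∃ R : ℝ, R = (H : ℝ) ^ (θ / 2) := ⟨_, rfl⟩
    have hRR : (H : ℝ) ^ θ = R * R := by
      rw [hR, ← Real.rpow_add hH0]
      congr 1
      ring
    rw [← hR] at hLU
    have hMR : R * R ≤ M := by rw [← hRR]; exact hM
    have hLUp : ∀ n : ℕ, 1 ≤ L ^ n := fun n => one_le_pow₀ hL1
    have hR1 : 1 ≤ R := (hLUp _).trans hLU
    have hR0 : 0 ≤ R := by linarith
    have hLA1 : 1 ≤ L ^ A := hLUp A
    have hKH : m + M ≤ H := by
      have h1 : (m : ℝ) + M ≤ H := by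
        refine le_trans ?_ hmH
        exact le_mul_of_one_le_right (by positivity) hBB1
      exact_mod_cast h1
    have hbig : 2 * L * R ≤ M / L ^ (U + 4) := by
      rw [le_div_iff₀ (by positivity)]
      calc 2 * L * R * L ^ (U + 4) ≤ L * L * R * L ^ (U + 4) := by gcongr; linarith
        _ = R * L ^ (U + 6) := by ring
        _ ≤ R * L ^ (U + 6 + (U + 6)) := by
            apply mul_le_mul_of_nonneg_left _ hR0
            exact pow_le_pow_right₀ hL1 (by omega)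
        _ ≤ R * R := mul_le_mul_of_nonneg_left hLU hR0
        _ ≤ M := hMR
    have hK1R : (K1 : ℝ) + 2 * j ≤ R := by
      have h1 : (j : ℝ) * L ^ (U + 1) ≤ L * L ^ (U + 1) := by
        apply mul_le_mul_of_nonneg_right _ (by positivity)
        linarith
      have h2 : 2 * (j : ℝ) ≤ L * L ^ (U + 1) := by
        have := hLUp (U + 1)
        nlinarith
      have h3 : L * L ^ (U + 1) + L * L ^ (U + 1) ≤ L ^ (U + 6 + (U + 6)) := by
        calc L * L ^ (U + 1) + L * L ^ (U + 1) = 2 * L ^ (U + 2) := by ring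
          _ ≤ L * L ^ (U + 2) := by
              apply mul_le_mul_of_nonneg_right _ (by positivity)
              linarith
          _ = L ^ (U + 3) := by ring
          _ ≤ _ := pow_le_pow_right₀ hL1 (by omega)
      linarith
    have hMK : 2 * (K1 + 2 * j) ≤ M := by
      have h1 : (2 : ℝ) * (K1 + 2 * j) ≤ M := by
        have h2 : 2 * L * R ≤ M := hbig.trans (div_le_self hM0 (hLUp _))
        have h3 : 2 * R ≤ 2 * L * R := by nlinarith
        linarith
      exact_mod_cast h1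
    have hj0 : (0 : ℝ) ≤ j := Nat.cast_nonneg _
    -- the two ends
    have e1 : |pv (pol c) (m + M) - SS z (pol c) * lF (pol c) (m + M)| ≤
        5 * (SS z (pol c) * M / L ^ (U + 4)) := by
      refine end_err (K1 := K1) hpos hS (by linarith) ?_ (A := A) ?_ ?_
      · refine le_trans ?_ hbig
        have : (K1 : ℝ) ≤ R := by linarith
        gcongr
      · push_cast
        have : (M : ℝ) ≤ M * L ^ A := le_mul_of_one_le_right hM0 hLA1
        linarith
      · by_contra hcon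
        push Not at hcon
        refine b1 ⟨hc, ?_⟩
        rw [hQ1]
        refine ⟨hadm, m + M, ?_, ?_, hcon⟩
        · rw [← hR]
          push_cast
          have : R ≤ R * R := by nlinarith
          linarith
        · push_cast
          exact (mul_le_mul_of_nonneg_left hB1 (by positivity)).trans hmH
    have hSM : 0 ≤ SS z (pol c) * M / L ^ (U + 4) := by positivity
    have e2 : |pv (pol c) m - SS z (pol c) * lF (pol c) m| ≤
        5 * (SS z (pol c) * M / L ^ (U + 4)) := by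
      by_cases hmR : R ≤ m
      · refine end_err (K1 := K1) hpos hS (by linarith) ?_ (A := A) ?_ ?_
        · refine le_trans ?_ hbig
          have : (K1 : ℝ) ≤ R := by linarith
          gcongr
        · have : 0 ≤ M * L ^ A := by positivity
          linarith
        · by_contra hcon
          push Not at hcon
          refine b1 ⟨hc, ?_⟩
          rw [hQ1]
          refine ⟨hadm, m, ?_, ?_, hcon⟩
          · rw [← hR]
            exact hmR
          · refine (mul_le_mul_of_nonneg_left hB1 hm0).trans (le_trans ?_ hmH)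
            exact mul_le_mul_of_nonneg_right (by linarith) (by positivity)
      · push Not at hmR
        refine (end_err_small (Mr := (M : ℝ)) (V := U + 4) hS (by linarith) ?_).trans ?_
        · refine le_trans ?_ hbig
          gcongr
        · linarith
    have hN : |((PP (pol c) m M).card : ℝ) - SS z (pol c) * LL (pol c) m M| ≤
        10 * (SS z (pol c) * M / L ^ (U + 4)) := by
      rw [pv_sub, lF_sub]
      have h1 : pv (pol c) (m + M) - pv (pol c) m -
          SS z (pol c) * (lF (pol c) (m + M) - lF (pol c) m) =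
          (pv (pol c) (m + M) - SS z (pol c) * lF (pol c) (m + M)) -
          (pv (pol c) m - SS z (pol c) * lF (pol c) m) := by ring
      rw [h1]
      refine (abs_sub _ _).trans ?_
      linarith
    have hG : (M : ℝ) / (2 * (j + 2) * L) ≤ LL (pol c) m M := by
      have h1 := LL_lower (by omega) hc K1 hpos (by omega) hKH hMK
      rw [← hLd] at h1
      exact h1
    have hMpos : (0 : ℝ) < M := by nlinarith
    have hG0 : 0 < LL (pol c) m M := lt_of_lt_of_le (by positivity) hG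
    obtain ⟨G, hGd⟩ : ∃ G, G = LL (pol c) m M := ⟨_, rfl⟩
    obtain ⟨N, hNd⟩ : ∃ N : ℝ, N = ((PP (pol c) m M).card : ℝ) := ⟨_, rfl⟩
    rw [← hSd] at hS hS0 hN
    rw [← hGd] at hN hG hG0
    rw [← hNd] at hN
    have hMG : (M : ℝ) ≤ L ^ 2 * G := by
      rw [div_le_iff₀ (by positivity)] at hG
      calc (M : ℝ) ≤ G * (2 * (j + 2) * L) := hG
        _ ≤ G * (L * L) := by
            apply mul_le_mul_of_nonneg_left _ hG0.le
            apply mul_le_mul_of_nonneg_right _ hL0.le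
            nlinarith
        _ = L ^ 2 * G := by ring
    have hN2 : |N - S * G| ≤ S * G / L ^ (U + 1) := by
      refine hN.trans ?_
      calc 10 * (S * M / L ^ (U + 4)) ≤ L * (S * (L ^ 2 * G) / L ^ (U + 4)) := by
            gcongr
            linarith
        _ = S * G / L ^ (U + 1) := by
            rw [show U + 4 = U + 1 + 3 by ring, pow_add L (U + 1) 3]
            field_simp
    have hSG0 : 0 < S * G := mul_pos hS0 hG0
    have hN3 : |N - S * G| ≤ S * G / L ^ U := by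
      refine hN2.trans ?_
      exact div_le_div_of_nonneg_left hSG0.le (by positivity) (pow_le_pow_right₀ hL1 (by omega))
    have hNlow : S * G / 2 ≤ N := by
      have h1 := (abs_le.1 hN2).1
      have h2 : S * G / L ^ (U + 1) ≤ S * G / 2 := by
        apply div_le_div_of_nonneg_left hSG0.le (by norm_num)
        calc (2 : ℝ) ≤ L := by linarith
          _ ≤ L ^ (U + 1) := le_self_pow₀ hL1 (by omega)
      linarith
    rw [← hSd, ← hGd, ← hNd]
    have hPpos : (0 : ℝ) < N := by linarith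
    refine ⟨hG0, hN3, ?_, ?_⟩
    · rw [hNd] at hPpos
      exact_mod_cast hPpos
    · intro T hT hfree
      rw [hNd]
      refine hszem' z hzy c hc hloc.1 hloc.2 (by rw [← hSd]; exact hS) m M hM hKH _ (PP_sub _ _ _)
        ?_ T hT ?_
      · rw [← hSd, ← hNd]
        refine le_trans ?_ hNlow
        calc 1 / (4 * ((j : ℝ) + 2)) * S * M / L = S * (M / (2 * (j + 2) * L)) / 2 := by
              field_simp
              ring
          _ ≤ S * G / 2 := by gcongr
      · intro b d h1 h2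
        exact hfree b d h1 (h2.trans hB2)

end Run7.h976.FX
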