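import Pool.Agent.Run7.h976.FX.Main
import Pool.Agent.TH892.CF3
import Pool.Agent.Y737.LW.Qc1

/-!
# Quadratic polynomials of height `H`: all windows, with the constant of Conjecture F
-/

set_option autoImplicit false

open Finset Polynomial Filter Topology

namespace Run7.h976.FX

open Pool.Agent.TH892 (box pol pol_eval Tr mem_Tr dsc)
open Pool.Agent.H300R2.BH (SS rho pv lF)
open Pool.Agent.Y871.LW (rhoC SC)
open Pool.Agent.W468.ConjF (Admissible CF)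
open Pool.Agent.H442R2.EHI (evt_log_pow evt_log_ge)

/-- the vector of the coefficients of `a t² + b t + c` -/
def vec (t : ℤ × ℤ × ℤ) : Fin 3 → ℤ := Fin.cons t.2.2 ![t.2.1, t.1]

lemma vec_inj : Function.Injective vec := by
  rintro ⟨a, b, c⟩ ⟨a', b', c'⟩ h
  have h0 := congrFun h 0
  have h1 := congrFun h 1
  have h2 := congrFun h 2
  have e0 : c = c' := h0
  have e1 : b = b' := h1
  have e2 : a = a' := h2
  rw [e0, e1, e2]

lemma FT_two (a b : ℤ) : FT ![b, a] = C a * X ^ 2 + C b * X := by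
  unfold FT
  rw [Fin.sum_univ_two]
  simp only [Matrix.cons_val_zero, Matrix.cons_val_one, Fin.val_zero, Fin.val_one, zero_add, pow_one]
  rw [add_comm]

lemma eval_vec (t : ℤ × ℤ × ℤ) (n : ℤ) : (pol (vec t)).eval n = t.1 * n ^ 2 + t.2.1 * n + t.2.2 := by
  unfold vec
  rw [eval_cons, FT_two]
  simp

lemma mem_vec {H : ℕ} (t : ℤ × ℤ × ℤ) : vec t ∈ box 2 H ↔ t ∈ Tr H := by
  unfold vec
  rw [mem_box_cons (by norm_num), mem_Tr]
  unfold tb
  rw [Fintype.mem_piFinset, Fin.forall_fin_two]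
  simp only [Fin.val_zero, Fin.val_one, Matrix.cons_val_zero, Matrix.cons_val_one]
  rw [if_neg (by norm_num), if_pos (by norm_num), mem_Icc, mem_Icc, mem_Icc]
  tauto

lemma card_box_two (H : ℕ) : ((box 2 H).card : ℝ) = (Tr H).card := by
  rw [card_box_eq (by norm_num), Pool.Agent.TH892.card_Tr]
  have h1 : (tb 2 H).card = (2 * H + 1) * H := by
    unfold tb
    rw [Fintype.card_piFinset, Fin.prod_univ_two]
    simp only [Fin.val_zero, Fin.val_one]
    rw [if_neg (by norm_num), if_pos (by norm_num), Int.card_Icc, Int.card_Icc]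
    congr 1
    · omega
    · omega
  rw [h1]
  push_cast
  ring

lemma SC_eq (F : ℤ[X]) (t : ℤ) (z : ℕ) : SC F t z = Pool.Agent.TH204.WR.hh F t z := by
  unfold SC Pool.Agent.TH204.WR.hh Pool.Agent.H373R2.T7.Vz
  rw [← prod_inv_distrib, ← prod_mul_distrib]
  have hs : (range (z + 1)).filter Nat.Prime = Pool.Agent.H373R2.T7.pz z := by
    ext p
    unfold Pool.Agent.H373R2.T7.pz
    rw [mem_filter, mem_filter, mem_range, mem_Icc]
    constructor
    · rintro ⟨h1, h2⟩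
      exact ⟨⟨h2.one_le, by omega⟩, h2⟩
    · rintro ⟨⟨h1, h3⟩, h2⟩
      exact ⟨by omega, h2⟩
  rw [hs]
  apply prod_congr rfl
  intro p hp
  have hpp : p.Prime := by
    unfold Pool.Agent.H373R2.T7.pz at hp
    exact (mem_filter.1 hp).2
  have h2 : (2 : ℝ) ≤ p := by exact_mod_cast hpp.two_le
  have h3 : (p : ℝ) ≠ 0 := by linarith
  have h4 : (p : ℝ) - 1 ≠ 0 := by linarith
  have h5 : (1 : ℝ) - 1 / p ≠ 0 := by
    rw [one_sub_div h3]
    exact div_ne_zero h4 h3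
  have e : rhoC F t p = Pool.Agent.TH204.WR.rho F t p := rfl
  rw [e]
  field_simp

lemma SS_vec {t : ℤ × ℤ × ℤ} (h : Admissible t.1 t.2.1 t.2.2) {z : ℕ} (hz : 2 ≤ z) :
    SS z (pol (vec t)) = 2 * CF t.1 t.2.1 t.2.2 z := by
  unfold vec
  rw [SS_cons, SC_eq, FT_two]
  exact Pool.Agent.Y737.LW.t_QC1 _ _ _ h z hz

/-- no fixed prime divisor -/
lemma adm_rho {t : ℤ × ℤ × ℤ} (h : Admissible t.1 t.2.1 t.2.2) (p : ℕ) (hp : p.Prime) :
    rho (pol (vec t)) p ≠ p := by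
  rw [Pool.Agent.H300R2.BH.rho_ne_iff _ p hp]
  by_contra hcon
  push Not at hcon
  have g0 := hcon 0
  have g1 := hcon 1
  have g2 := hcon (-1)
  rw [eval_vec] at g0 g1 g2
  have e0 : (p : ℤ) ∣ t.2.2 := by simpa using g0
  have e1 : (p : ℤ) ∣ t.1 + t.2.1 := by
    have := dvd_sub g1 e0
    have e : t.1 * 1 ^ 2 + t.2.1 * 1 + t.2.2 - t.2.2 = t.1 + t.2.1 := by ring
    rwa [e] at this
  have e2 : (p : ℤ) ∣ t.1 - t.2.1 := by
    have := dvd_sub g2 e0
    have e : t.1 * (-1) ^ 2 + t.2.1 * (-1) + t.2.2 - t.2.2 = t.1 - t.2.1 := by ring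
    rwa [e] at this
  by_cases hp2 : p = 2
  · subst hp2
    exact h.2.2.1 ⟨by exact_mod_cast e1, by exact_mod_cast e0⟩
  · have hpz : Prime (p : ℤ) := Nat.prime_iff_prime_int.1 hp
    have hp2' : ¬ (p : ℤ) ∣ 2 := by
      intro h2
      have h3 : p ∣ 2 := by exact_mod_cast h2
      exact hp2 ((Nat.prime_dvd_prime_iff_eq hp Nat.prime_two).1 h3)
    have f1 : (p : ℤ) ∣ t.1 := by
      have := dvd_add e1 e2
      have e : t.1 + t.2.1 + (t.1 - t.2.1) = 2 * t.1 := by ring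
      rw [e] at this
      exact (hpz.dvd_or_dvd this).resolve_left hp2'
    have f2 : (p : ℤ) ∣ t.2.1 := by
      have := dvd_sub e1 f1
      have e : t.1 + t.2.1 - t.1 = t.2.1 := by ring
      rwa [e] at this
    exact hpz.not_isUnit (h.2.1 p f1 f2 e0)

/-- the final inequality -/
lemma final_ineq {N G S C L : ℝ} {U : ℕ} (hC : 0 < C) (hL : 10 ≤ L) (hG : 0 ≤ G)
    (hN : |N - S * G| ≤ S * G / L ^ (U + 1)) (hSC : |S - 2 * C| ≤ 4 / L ^ (U + 1) * C) :
    |N - 2 * C * G| ≤ 2 * C * G / L ^ U := by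
  have hL0 : 0 < L := by linarith
  have hL1 : 1 ≤ L ^ (U + 1) := one_le_pow₀ (by linarith)
  have hSC' := abs_le.1 hSC
  have h4L : 4 / L ^ (U + 1) ≤ 4 := div_le_self (by norm_num) hL1
  have hS6 : S ≤ 6 * C := by
    have : 4 / L ^ (U + 1) * C ≤ 4 * C := mul_le_mul_of_nonneg_right h4L hC.le
    linarith [hSC'.2]
  have hSG : S * G ≤ 6 * C * G := mul_le_mul_of_nonneg_right hS6 hG
  have hCG : 0 ≤ C * G := mul_nonneg hC.le hG
  have h3 : N - 2 * C * G = (N - S * G) + (S - 2 * C) * G := by ring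
  rw [h3]
  refine (abs_add_le _ _).trans ?_
  rw [abs_mul, abs_of_nonneg hG]
  have h4 : |S - 2 * C| * G ≤ 4 / L ^ (U + 1) * C * G := mul_le_mul_of_nonneg_right hSC hG
  have h5 : S * G / L ^ (U + 1) ≤ 6 * C * G / L ^ (U + 1) :=
    div_le_div_of_nonneg_right hSG (by positivity)
  have h6 : 6 * C * G / L ^ (U + 1) + 4 / L ^ (U + 1) * C * G = 2 * C * G / L ^ U * (5 / L) := by
    rw [pow_succ]
    field_simp
    ring
  have h7 : 2 * C * G / L ^ U * (5 / L) ≤ 2 * C * G / L ^ U * 1 := by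
    apply mul_le_mul_of_nonneg_left _ (by positivity)
    rw [div_le_one hL0]
    linarith
  linarith

/-- **Everything together.** -/
theorem quad_main (k : ℕ) (θ ε : ℝ) (hθ : 0 < θ) (hε : 0 < ε) (U A : ℕ) : ∃ B H₀ : ℕ,
    ∀ H : ℕ, H₀ ≤ H → ∃ Bad ⊆ Tr H, (#Bad : ℝ) ≤ #(Tr H) / Real.log H ^ U ∧
    ∀ t ∈ Tr H, t ∉ Bad → Admissible t.1 t.2.1 t.2.2 → ∃ C : ℝ, 0 < C ∧
      Tendsto (fun z => CF t.1 t.2.1 t.2.2 z) atTop (𝓝 C) ∧
      ∀ m M : ℕ, (H : ℝ) ^ θ ≤ M → (m : ℝ) ≤ M * Real.log H ^ A →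
      ((m : ℝ) + M) * Real.log H ^ B ≤ H →
      |(#(PP (pol (vec t)) m M) : ℝ) - 2 * C * LL (pol (vec t)) m M| ≤
        2 * C * LL (pol (vec t)) m M / Real.log H ^ U ∧ 0 < #(PP (pol (vec t)) m M) ∧
      ∀ T ⊆ PP (pol (vec t)) m M, Free T k (Real.log H ^ B) →
        (#T : ℝ) ≤ ε * #(PP (pol (vec t)) m M) := by
  classical
  obtain ⟨E1, hmain⟩ := box_main 2 k le_rfl θ ε hθ hε (U + 1) A
  obtain ⟨E2, hCF⟩ := Pool.Agent.TH892.CF_box (U + 1) (U + 1)
  obtain ⟨E, hE⟩ : ∃ E, E = max (max E1 E2) 1 := ⟨_, rfl⟩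
  have hE1 : E1 ≤ E := by rw [hE]; exact (le_max_left _ _).trans (le_max_left _ _)
  have hE2 : E2 ≤ E := by rw [hE]; exact (le_max_right _ _).trans (le_max_left _ _)
  have hE3 : 1 ≤ E := by rw [hE]; exact le_max_right _ _
  obtain ⟨B, H₁, hm⟩ := hmain E hE1
  obtain ⟨H₂, hX⟩ := hCF E hE2
  obtain ⟨H₃, hH₃⟩ := eventually_atTop.1 (evt_log_ge 10)
  refine ⟨B, max (max H₁ H₂) H₃, fun H hH => ?_⟩
  have g1 : H₁ ≤ H := ((le_max_left _ _).trans (le_max_left _ _)).trans hH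
  have g2 : H₂ ≤ H := ((le_max_right _ _).trans (le_max_left _ _)).trans hH
  have hL := hH₃ H ((le_max_right _ _).trans hH)
  obtain ⟨Bad, hBs, hBc, hB⟩ := hm H g1
  obtain ⟨X', hXs, hXc, hX'⟩ := hX H g2
  obtain ⟨L, hLd⟩ : ∃ L, L = Real.log H := ⟨_, rfl⟩
  obtain ⟨z, hz⟩ : ∃ z, z = ⌊L ^ E⌋₊ := ⟨_, rfl⟩
  rw [← hLd] at hL hBc hXc
  rw [← hLd, ← hz] at hX'
  rw [← hLd, ← hz] at hB
  rw [← hLd]
  have hL1 : 1 ≤ L := by linarith
  have hL0 : 0 < L := by linarith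
  have hz2 : 2 ≤ z := by
    rw [hz]
    apply Nat.le_floor
    calc ((2 : ℕ) : ℝ) ≤ L := by push_cast; linarith
      _ ≤ L ^ E := le_self_pow₀ hL1 (by omega)
  refine ⟨((Tr H).filter (fun t => vec t ∈ Bad)) ∪ X', union_subset (filter_subset _ _) hXs, ?_, ?_⟩
  · have h1 : (#(Tr H) : ℝ) / L ^ (U + 1) ≤ 1 / 2 * (#(Tr H) / L ^ U) := by
      have h2 : L ^ U * 2 ≤ L ^ (U + 1) := by
        rw [pow_succ]
        exact mul_le_mul_of_nonneg_left (by linarith) (by positivity)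
      calc (#(Tr H) : ℝ) / L ^ (U + 1) ≤ #(Tr H) / (L ^ U * 2) :=
            div_le_div_of_nonneg_left (Nat.cast_nonneg _) (by positivity) h2
        _ = _ := by field_simp
    have c1 : (((Tr H).filter (fun t => vec t ∈ Bad)).card : ℝ) ≤ 1 / 2 * (#(Tr H) / L ^ U) := by
      refine le_trans ?_ h1
      rw [← card_box_two]
      refine le_trans ?_ hBc
      have : ((Tr H).filter (fun t => vec t ∈ Bad)).card ≤ Bad.card :=
        card_le_card_of_injOn vec (fun t ht => by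
          rw [mem_coe, mem_filter] at ht
          exact ht.2) (fun _ _ _ _ h => vec_inj h)
      exact_mod_cast this
    have c2 : (#X' : ℝ) ≤ 1 / 2 * (#(Tr H) / L ^ U) := hXc.trans h1
    have n0 : (#((Tr H).filter (fun t => vec t ∈ Bad) ∪ X') : ℝ) ≤
        #((Tr H).filter (fun t => vec t ∈ Bad)) + #X' := by
      exact_mod_cast card_union_le _ _
    linarith
  · intro t ht htB hadm
    rw [mem_union, not_or, mem_filter] at htB
    obtain ⟨b1, b2⟩ := htB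
    have hvt : vec t ∈ box 2 H := (mem_vec t).2 ht
    obtain ⟨r1, r2⟩ := hB (vec t) hvt (fun h => b1 ⟨ht, h⟩) (fun p hp _ => adm_rho hadm p hp)
    obtain ⟨C, hC, hlim⟩ := Pool.Agent.W468.ConjF.CF_tendsto t.1 t.2.1 t.2.2 hadm.1 hadm.2.2.2
    refine ⟨C, hC, hlim, fun m M hM hmM hmH => ?_⟩
    obtain ⟨q0, q1, q2, q3⟩ := r2 m M hM hmM hmH
    refine ⟨final_ineq hC hL q0.le q1 ?_, q2, q3⟩
    rw [SS_vec hadm hz2]
    have h1 := hX' t ht b2 (by
      intro h0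
      apply hadm.2.2.2
      rw [h0, mul_zero, sub_zero]
      exact ⟨t.2.1, by ring⟩) hadm.2.2.2
    have h2 := Pool.Agent.TH892.CF_limit t.1 t.2.1 t.2.2 C hC hlim z (1 / L ^ (U + 1)) (by
      rw [div_le_one (by positivity)]; exact one_le_pow₀ hL1) h1
    have h3 : 2 * CF t.1 t.2.1 t.2.2 z - 2 * C = 2 * (CF t.1 t.2.1 t.2.2 z - C) := by ring
    rw [h3, abs_mul, abs_two]
    calc 2 * |CF t.1 t.2.1 t.2.2 z - C| ≤ 2 * (2 * (1 / L ^ (U + 1)) * C) := by linarith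
      _ = 4 / L ^ (U + 1) * C := by ring

end Run7.h976.FX
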