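import Pool.Agent.Y843.HS.Top
import Pool.Agent.TH892.FullBox4
import Pool.Agent.Run7.h976.FX.Box

/-!
# Szemerédi's theorem for the prime values of one polynomial, relative to their true number
-/

set_option autoImplicit false

open Finset Polynomial Filter

namespace Run7.h976.FX

open Pool.Agent.TH892 (box pol pol_eval)
open Pool.Agent.H300R2.BH (SS rho)
open Pool.Agent.H300R2.FB (pa la)
open Pool.Agent.Y843.HS (Pr VV)
open Pool.Agent.H442R2.EHI (evt_log_pow evt_log_ge)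

/-- the `n` in `(m, m + M]` such that `|F(n)|` is prime -/
def PA (F : ℤ[X]) (m M : ℕ) : Finset ℕ :=
  (Ioc m (m + M)).filter (fun n : ℕ => (F.eval (n : ℤ)).natAbs.Prime)

/-- no progression of `k` terms with a difference `1 ≤ d ≤ D` -/
def Free (T : Finset ℕ) (k : ℕ) (D : ℝ) : Prop :=
  ∀ b d : ℕ, 1 ≤ d → (d : ℝ) ≤ D → ∃ i < k, b + i * d ∉ T

/-- Mertens' theorem, upper bound -/
lemma mertens_prod : ∃ C : ℝ, 0 < C ∧ ∀ y : ℕ, 3 ≤ y →
    ∏ p ∈ Pr 0 y, (1 - 1 / (p : ℝ)) ≤ C / Real.log y := by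
  obtain ⟨C, hC⟩ := Pool.Agent.Helper256.KM.mertens_inv
  refine ⟨Real.exp C, Real.exp_pos _, fun y hy => ?_⟩
  have hyr : (3 : ℝ) ≤ y := by exact_mod_cast hy
  have hly : 0 < Real.log y := Real.log_pos (by linarith)
  have h1 : ∏ p ∈ Pr 0 y, (1 - 1 / (p : ℝ)) ≤ Real.exp (-∑ p ∈ Pr 0 y, (1 : ℝ) / p) := by
    rw [← sum_neg_distrib, Real.exp_sum]
    refine prod_le_prod (fun p hp => ?_) (fun p hp => ?_)
    · have h1 : (1 : ℝ) ≤ p := by exact_mod_cast (mem_filter.1 hp).2.one_lt.le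
      have h2 : (1 : ℝ) / p ≤ 1 := by
        rw [div_le_one (by linarith)]
        exact h1
      linarith
    · have := Real.add_one_le_exp (-((1 : ℝ) / p))
      linarith
  have h2 : Pr 0 y = (Icc 1 y).filter Nat.Prime := by
    ext p
    unfold Pr
    rw [mem_filter, mem_filter, mem_Ioc, mem_Icc]
    constructor
    · rintro ⟨h, h'⟩
      exact ⟨by omega, h'⟩
    · rintro ⟨h, h'⟩
      exact ⟨by omega, h'⟩
  have h3 := (abs_le.1 (hC y hy)).1
  rw [← h2] at h3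
  refine h1.trans ?_
  calc Real.exp (-∑ p ∈ Pr 0 y, (1 : ℝ) / p) ≤ Real.exp (C - Real.log (Real.log y)) :=
        Real.exp_le_exp.2 (by linarith)
    _ = Real.exp C / Real.log y := by rw [Real.exp_sub, Real.exp_log hly]

lemma Pr_eq (y : ℕ) : Pr 0 y = (Icc 1 y).filter Nat.Prime := by
  ext p
  unfold Pr
  rw [mem_filter, mem_filter, mem_Ioc, mem_Icc]
  constructor
  · rintro ⟨h, h'⟩
    exact ⟨by omega, h'⟩
  · rintro ⟨h, h'⟩
    exact ⟨by omega, h'⟩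

/-- the sieve product in terms of the singular series -/
lemma prod_split (F : ℤ[X]) {z y : ℕ} (hzy : z ≤ y) :
    ∏ p ∈ Pr 0 y, (1 - (rho F p : ℝ) / p) =
      SS z F * (∏ p ∈ (Ioc z y).filter Nat.Prime, (1 - (rho F p : ℝ) / p) / (1 - 1 / (p : ℝ))) *
        ∏ p ∈ Pr 0 y, (1 - 1 / (p : ℝ)) := by
  have h1 : SS z F * (∏ p ∈ (Ioc z y).filter Nat.Prime, (1 - (rho F p : ℝ) / p) / (1 - 1 / (p : ℝ))) =
      ∏ p ∈ Pr 0 y, (1 - (rho F p : ℝ) / p) / (1 - 1 / (p : ℝ)) := by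
    unfold SS
    rw [← prod_union]
    · rw [Pr_eq]
      congr 1
      ext p
      simp only [mem_union, mem_filter, mem_Icc, mem_Ioc]
      constructor
      · rintro (⟨⟨h1, h2⟩, h3⟩ | ⟨⟨h1, h2⟩, h3⟩)
        · exact ⟨⟨h1, by omega⟩, h3⟩
        · exact ⟨⟨by omega, h2⟩, h3⟩
      · rintro ⟨⟨h1, h2⟩, h3⟩
        by_cases h : p ≤ z
        · exact Or.inl ⟨⟨h1, h⟩, h3⟩
        · exact Or.inr ⟨⟨by omega, h2⟩, h3⟩
    · rw [disjoint_left]
      intro p h1 h2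
      rw [mem_filter, mem_Icc] at h1
      rw [mem_filter, mem_Ioc] at h2
      omega
  rw [h1, ← prod_mul_distrib]
  apply prod_congr rfl
  intro p hp
  have hp2 : (2 : ℝ) ≤ p := by exact_mod_cast (mem_filter.1 hp).2.two_le
  have h3 : (1 : ℝ) - 1 / p ≠ 0 := by
    have h1 : (p : ℝ) ≠ 0 := by linarith
    have h2 : (p : ℝ) - 1 ≠ 0 := by linarith
    rw [one_sub_div h1]
    exact div_ne_zero h2 h1
  rw [div_mul_cancel₀ _ h3]

/-- few arguments with small values -/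
lemma small_values {j H : ℕ} (hj : 1 ≤ j) {c : Fin (j + 1) → ℤ} (hc : c ∈ box j H) (y K : ℕ) :
    ((Icc 1 K).filter (fun n : ℕ => ((pol c).eval (n : ℤ)).natAbs ≤ y)).card ≤ (2 * y + 1) * j := by
  classical
  have h1 : (Icc 1 K).filter (fun n : ℕ => ((pol c).eval (n : ℤ)).natAbs ≤ y) ⊆
      (Icc (-(y : ℤ)) y).biUnion (fun v => (Icc 1 K).filter (fun n : ℕ => (pol c).eval (n : ℤ) = v)) := by
    intro n hn
    rw [mem_filter] at hn
    rw [mem_biUnion]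
    refine ⟨(pol c).eval (n : ℤ), ?_, mem_filter.2 ⟨hn.1, rfl⟩⟩
    rw [mem_Icc]
    omega
  refine (card_le_card h1).trans (card_biUnion_le.trans ?_)
  calc ∑ v ∈ Icc (-(y : ℤ)) y, ((Icc 1 K).filter (fun n : ℕ => (pol c).eval (n : ℤ) = v)).card
      ≤ ∑ _v ∈ Icc (-(y : ℤ)) y, j := sum_le_sum fun v _ => Pool.Agent.TH892.card_eq_le hj hc v K
    _ = (2 * y + 1) * j := by
        rw [sum_const, smul_eq_mul, Int.card_Icc]
        congr 1
        omega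

/-- **Szemerédi's theorem for the prime values of one polynomial.** -/
theorem szem (j k : ℕ) (hj : 1 ≤ j) (θ c₁ ε : ℝ) (hθ : 0 < θ) (hc₁ : 0 < c₁) (hε : 0 < ε) :
    ∃ B H₀ : ℕ, ∀ H : ℕ, H₀ ≤ H → ∀ y : ℕ, y = ⌊(H : ℝ) ^ (min θ 1 / 4)⌋₊ → ∀ z : ℕ, z ≤ y →
      ∀ c ∈ box j H, (∀ p : ℕ, p.Prime → p ≤ y → rho (pol c) p ≤ j ∧ rho (pol c) p < p) →
      ∏ p ∈ (Ioc z y).filter Nat.Prime, (1 - (rho (pol c) p : ℝ) / p) / (1 - 1 / (p : ℝ)) ≤ Real.exp 3 →
      1 / Real.log H ≤ SS z (pol c) → ∀ m M : ℕ, (H : ℝ) ^ θ ≤ M → m + M ≤ H →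
      ∀ P ⊆ PA (pol c) m M, c₁ * SS z (pol c) * M / Real.log H ≤ P.card →
      ∀ T ⊆ P, Free T k (Real.log H ^ B) → (T.card : ℝ) ≤ ε * P.card := by
  classical
  obtain ⟨C, hC, hmert⟩ := mertens_prod
  obtain ⟨θ₁, hθ₁⟩ : ∃ θ₁ : ℝ, θ₁ = min θ 1 / 4 := ⟨_, rfl⟩
  have hθ₁0 : 0 < θ₁ := by rw [hθ₁]; have := lt_min hθ one_pos; linarith
  have hθ₁θ : 4 * θ₁ ≤ θ := by rw [hθ₁]; have := min_le_left θ 1; linarith
  obtain ⟨δ, hδ⟩ : ∃ δ : ℝ, δ = ε * c₁ * θ₁ / (4 * (Real.exp 3 * C)) := ⟨_, rfl⟩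
  have hδ0 : 0 < δ := by rw [hδ]; positivity
  obtain ⟨B, X₀, hfin⟩ := Pool.Agent.Y843.HS.fin k j (1 / 4) δ (by norm_num) hδ0
  have hev : ∀ᶠ H : ℕ in atTop, 10 + 6 * j / (ε * c₁) ≤ Real.log H ∧
      Real.log H ^ 3 ≤ (H : ℝ) ^ (3 * θ₁) ∧ (X₀ : ℝ) ≤ (H : ℝ) ^ θ ∧ 4 ≤ (H : ℝ) ^ (θ₁ / 2) := by
    filter_upwards [evt_log_ge (10 + 6 * j / (ε * c₁)), evt_log_pow 3 (3 * θ₁) (by positivity),
      ((tendsto_rpow_atTop hθ).comp tendsto_natCast_atTop_atTop).eventually_ge_atTop (X₀ : ℝ),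
      ((tendsto_rpow_atTop (half_pos hθ₁0)).comp tendsto_natCast_atTop_atTop).eventually_ge_atTop (4 : ℝ)]
      with H h1 h2 h3 h4
    exact ⟨h1, h2, h3, h4⟩
  obtain ⟨H₀, hH₀⟩ := eventually_atTop.1 hev
  refine ⟨B, max H₀ 3, fun H hH y hy z hzy c hc hrho hprod hSS m M hM hmM P hP hPc T hT hfree => ?_⟩
  obtain ⟨hL, hL3, hX0, hH4⟩ := hH₀ H ((le_max_left _ _).trans hH)
  have hH3 : 3 ≤ H := (le_max_right _ _).trans hH
  obtain ⟨L, hLd⟩ : ∃ L, L = Real.log H := ⟨_, rfl⟩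
  rw [← hLd] at hL hL3 hSS hPc hfree
  rw [← hθ₁] at hy
  have hHr : (3 : ℝ) ≤ H := by exact_mod_cast hH3
  have hH0 : (0 : ℝ) < H := by linarith
  have hq : 0 ≤ 6 * (j : ℝ) / (ε * c₁) := by positivity
  have hL10 : 10 ≤ L := by linarith
  have hL0 : 0 < L := by linarith
  have hjr : (1 : ℝ) ≤ j := by exact_mod_cast hj
  -- powers of `H`
  obtain ⟨R, hR⟩ : ∃ R : ℝ, R = (H : ℝ) ^ θ₁ := ⟨_, rfl⟩
  obtain ⟨Q, hQ⟩ : ∃ Q : ℝ, Q = (H : ℝ) ^ (θ₁ / 2) := ⟨_, rfl⟩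
  have hQR : Q * Q = R := by
    rw [hQ, hR, ← Real.rpow_add hH0]
    congr 1
    ring
  rw [← hQ] at hH4
  have hR16 : 16 ≤ R := by rw [← hQR]; nlinarith
  have hR3 : (H : ℝ) ^ (3 * θ₁) = R ^ 3 := by
    rw [hR, ← Real.rpow_natCast, ← Real.rpow_mul hH0.le]
    congr 1
    push_cast
    ring
  have hR4 : R ^ 4 ≤ (H : ℝ) ^ θ := by
    have : R ^ 4 = (H : ℝ) ^ (4 * θ₁) := by
      rw [hR, ← Real.rpow_natCast, ← Real.rpow_mul hH0.le]
      congr 1
      push_cast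
      ring
    rw [this]
    exact Real.rpow_le_rpow_of_exponent_le (by linarith) hθ₁θ
  rw [hR3] at hL3
  have hM4 : R ^ 4 ≤ M := hR4.trans hM
  have hM0 : (0 : ℝ) < M := by
    have : (0 : ℝ) < R ^ 4 := by positivity
    linarith
  have hM1 : 1 ≤ M := by
    have : 0 < M := by exact_mod_cast hM0
    omega
  -- `y`
  have hyR : (y : ℝ) ≤ R := by rw [hy, ← hR]; exact Nat.floor_le (by positivity)
  have hyR2 : R < y + 1 := by rw [hy, ← hR]; exact Nat.lt_floor_add_one _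
  have hy3 : 3 ≤ y := by
    have : (3 : ℝ) < y := by linarith
    exact_mod_cast this.le
  have hyQ : Q ≤ y := by nlinarith
  have hly : θ₁ / 2 * L ≤ Real.log y := by
    have h1 : Real.log Q = θ₁ / 2 * L := by rw [hQ, Real.log_rpow hH0, hLd]
    rw [← h1]
    exact Real.log_le_log (by linarith) hyQ
  have hyM : (y : ℝ) ≤ (M : ℝ) ^ (1 / 4 : ℝ) := by
    refine hyR.trans ?_
    have h1 : R = (R ^ 4) ^ (1 / 4 : ℝ) := by
      rw [← Real.rpow_natCast, ← Real.rpow_mul (by linarith)]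
      norm_num
    rw [h1]
    exact Real.rpow_le_rpow (by positivity) hM4 (by norm_num)
  by_contra hcon
  push Not at hcon
  -- the sieving classes
  obtain ⟨Z, hZ⟩ : ∃ Z : ℕ → Finset ℕ, ∀ p, Z p = if p ≤ y then
      (range p).filter (fun a : ℕ => (p : ℤ) ∣ (pol c).eval (a : ℤ)) else ∅ := ⟨_, fun _ => rfl⟩
  have hZc : ∀ p, p ≤ y → (Z p).card = rho (pol c) p := by
    intro p hp
    rw [hZ, if_pos hp]
    rfl
  obtain ⟨T', hT'⟩ : ∃ T', T' = T.filter (fun n : ℕ => y < ((pol c).eval (n : ℤ)).natAbs) := ⟨_, rfl⟩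
  have hPA : ∀ n ∈ T, m < n ∧ n ≤ m + M ∧ ((pol c).eval (n : ℤ)).natAbs.Prime := by
    intro n hn
    have h1 := hP (hT hn)
    unfold PA at h1
    rw [mem_filter, mem_Ioc] at h1
    exact ⟨h1.1.1, h1.1.2, h1.2⟩
  -- the size of `T'`
  have hTT : (T.card : ℝ) ≤ T'.card + 3 * y * j := by
    have h1 : T ⊆ T' ∪ (Icc 1 (m + M)).filter (fun n : ℕ => ((pol c).eval (n : ℤ)).natAbs ≤ y) := by
      intro n hn
      obtain ⟨h2, h3, -⟩ := hPA n hn
      rw [mem_union, hT', mem_filter, mem_filter, mem_Icc]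
      by_cases h : y < ((pol c).eval (n : ℤ)).natAbs
      · exact Or.inl ⟨hn, h⟩
      · exact Or.inr ⟨⟨by omega, h3⟩, by omega⟩
    have h2 := (card_le_card h1).trans (card_union_le _ _)
    have h3 := small_values hj hc y (m + M)
    have h4 : T.card ≤ T'.card + (2 * y + 1) * j := by omega
    have h5 : (2 * y + 1) * j ≤ 3 * y * j := Nat.mul_le_mul_right _ (by omega)
    exact_mod_cast h4.trans (Nat.add_le_add_left h5 _)
  have hPlow : c₁ * (M / L ^ 2) ≤ P.card := by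
    refine le_trans ?_ hPc
    calc c₁ * (M / L ^ 2) = c₁ * (1 / L) * M / L := by field_simp
      _ ≤ c₁ * SS z (pol c) * M / L := by gcongr
  have hyj : 3 * (y : ℝ) * j ≤ ε / 2 * P.card := by
    have h1 : 6 * (j : ℝ) ≤ ε * c₁ * L := by
      have h2 : 6 * (j : ℝ) / (ε * c₁) ≤ L := by linarith
      rw [div_le_iff₀ (by positivity)] at h2
      linarith
    have h3 : R * L ^ 3 ≤ M := by
      calc R * L ^ 3 ≤ R * R ^ 3 := mul_le_mul_of_nonneg_left hL3 (by linarith)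
        _ = R ^ 4 := by ring
        _ ≤ M := hM4
    have h4 : ε / 2 * (c₁ * (M / L ^ 2)) ≤ ε / 2 * P.card := mul_le_mul_of_nonneg_left hPlow (by positivity)
    refine le_trans ?_ h4
    have h5 : R * L ≤ M / L ^ 2 := by
      rw [le_div_iff₀ (by positivity)]
      have e : R * L * L ^ 2 = R * L ^ 3 := by ring
      rw [e]
      exact h3
    calc 3 * (y : ℝ) * j ≤ 3 * R * j := by gcongr
      _ = R / 2 * (6 * j) := by ring
      _ ≤ R / 2 * (ε * c₁ * L) := mul_le_mul_of_nonneg_left h1 (by linarith)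
      _ = ε / 2 * (c₁ * (R * L)) := by ring
      _ ≤ ε / 2 * (c₁ * (M / L ^ 2)) := by gcongr
  have hT'low : ε / 2 * P.card ≤ T'.card := by linarith
  -- the sieve product
  have hVV : VV Z 0 ⌊(M : ℝ) ^ (1 / 4 : ℝ)⌋₊ = ∏ p ∈ Pr 0 y, (1 - (rho (pol c) p : ℝ) / p) := by
    have hyY : y ≤ ⌊(M : ℝ) ^ (1 / 4 : ℝ)⌋₊ := Nat.le_floor hyM
    unfold VV
    symm
    have h1 : ∏ p ∈ Pr 0 y, (1 - (rho (pol c) p : ℝ) / p) = ∏ p ∈ Pr 0 y, (1 - ((Z p).card : ℝ) / p) := by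
      apply prod_congr rfl
      intro p hp
      unfold Pr at hp
      rw [mem_filter, mem_Ioc] at hp
      rw [hZc p hp.1.2]
    rw [h1]
    apply prod_subset
    · intro p hp
      unfold Pr at hp ⊢
      rw [mem_filter, mem_Ioc] at hp ⊢
      exact ⟨⟨hp.1.1, hp.1.2.trans hyY⟩, hp.2⟩
    · intro p hp hpn
      have h2 : ¬ p ≤ y := by
        intro h
        apply hpn
        unfold Pr at hp ⊢
        rw [mem_filter, mem_Ioc] at hp ⊢
        exact ⟨⟨hp.1.1, h⟩, hp.2⟩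
      rw [hZ, if_neg h2, card_empty]
      simp
  have hS0 : 0 < SS z (pol c) := lt_of_lt_of_le (by positivity) hSS
  have hVVle : VV Z 0 ⌊(M : ℝ) ^ (1 / 4 : ℝ)⌋₊ ≤ SS z (pol c) * Real.exp 3 * (C / (θ₁ / 2 * L)) := by
    rw [hVV, prod_split (pol c) hzy]
    have h1 : 0 ≤ ∏ p ∈ Pr 0 y, (1 - 1 / (p : ℝ)) := by
      refine prod_nonneg fun p hp => ?_
      have h1 : (1 : ℝ) ≤ p := by exact_mod_cast (mem_filter.1 hp).2.one_lt.le
      have h2 : (1 : ℝ) / p ≤ 1 := by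
        rw [div_le_one (by linarith)]
        exact h1
      linarith
    have h2 : ∏ p ∈ Pr 0 y, (1 - 1 / (p : ℝ)) ≤ C / (θ₁ / 2 * L) := by
      refine (hmert y hy3).trans ?_
      exact div_le_div_of_nonneg_left hC.le (by positivity) hly
    exact mul_le_mul (mul_le_mul_of_nonneg_left hprod hS0.le) h2 h1 (by positivity)
  have hdens : δ * M * VV Z 0 ⌊(M : ℝ) ^ (1 / 4 : ℝ)⌋₊ ≤ T'.card := by
    refine le_trans ?_ hT'low
    calc δ * M * VV Z 0 ⌊(M : ℝ) ^ (1 / 4 : ℝ)⌋₊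
        ≤ δ * M * (SS z (pol c) * Real.exp 3 * (C / (θ₁ / 2 * L))) := by gcongr
      _ = ε / 2 * (c₁ * SS z (pol c) * M / L) := by
          rw [hδ]
          have := Real.exp_pos 3
          field_simp
          ring
      _ ≤ ε / 2 * P.card := mul_le_mul_of_nonneg_left hPc (by positivity)
  obtain ⟨a, d, hd1, hd2, had⟩ := hfin M m (by
      have : (X₀ : ℝ) ≤ M := hX0.trans hM
      exact_mod_cast this) Z (by
    intro p hp _
    rw [hZ]
    split_ifs with h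
    · obtain ⟨h1, h2⟩ := hrho p hp h
      have e : ((range p).filter (fun a : ℕ => (p : ℤ) ∣ (pol c).eval (a : ℤ))).card = rho (pol c) p := rfl
      rw [e]
      refine ⟨h1, h2, fun x hx => ?_⟩
      exact mem_range.1 (mem_filter.1 hx).1
    · refine ⟨by simp, by simp [hp.pos], fun x hx => absurd hx (notMem_empty x)⟩) T' (by
    intro n hn
    rw [hT', mem_filter] at hn
    obtain ⟨h1, h2, -⟩ := hPA n hn.1
    exact mem_Ioc.2 ⟨h1, h2⟩) (by
    intro n hn p hp _ hnZ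
    rw [hZ] at hnZ
    split_ifs at hnZ with h
    · rw [mem_filter] at hnZ
      rw [hT', mem_filter] at hn
      obtain ⟨-, -, h3⟩ := hPA n hn.1
      have h4 : (p : ℤ) ∣ (pol c).eval (n : ℤ) := by
        have h5 : ((n : ℤ) - ((n % p : ℕ) : ℤ)) ∣ (pol c).eval (n : ℤ) - (pol c).eval ((n % p : ℕ) : ℤ) :=
          Polynomial.sub_dvd_eval_sub _ _ _
        have h6 : (p : ℤ) ∣ (n : ℤ) - ((n % p : ℕ) : ℤ) := by
          push_cast
          exact Int.dvd_self_sub_emod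
        have h7 := dvd_add (h6.trans h5) hnZ.2
        rwa [sub_add_cancel] at h7
      have h5 : p ∣ ((pol c).eval (n : ℤ)).natAbs := by
        have := Int.natAbs_dvd_natAbs.2 h4
        rwa [Int.natAbs_natCast] at this
      have h6 := (Nat.prime_dvd_prime_iff_eq hp h3).1 h5
      omega
    · exact notMem_empty _ hnZ) hdens
  obtain ⟨i, hi, hin⟩ := hfree a d hd1 (hd2.trans (by
    have h1 : 0 ≤ Real.log M := Real.log_nonneg (by exact_mod_cast hM1)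
    have h2 : Real.log M ≤ L := by
      rw [hLd]
      exact Real.log_le_log hM0 (by exact_mod_cast (by omega : M ≤ H))
    exact pow_le_pow_left₀ h1 h2 B))
  apply hin
  have h1 := had i hi
  rw [hT', mem_filter] at h1
  exact h1.1

end Run7.h976.FX
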